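import Pool.Agent.H630SD.Model
import Pool.Agent.H630XR.P11

/-! # T3: OR-closed and constant-closed languages -/

open scoped Classical
open Finset
namespace H630SD
open H630VC H630XR
variable {ι : Type} {ar : ι → ℕ} {rel : ∀ i, Set (Fin (ar i) → Bool)}

/-- the dual language -/
def t3_dual (rel : ∀ i, Set (Fin (ar i) → Bool)) : ∀ i, Set (Fin (ar i) → Bool) :=
  fun i t => (fun j => !t j) ∈ rel i

theorem t3_dual_pol (h : Pol rel (fun x : Fin 2 → Bool => x 0 || x 1)) :
    Pol (t3_dual rel) (fun x : Fin 2 → Bool => x 0 && x 1) := by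
  intro i t ht
  show (fun j => !(t 0 j && t 1 j)) ∈ rel i
  have h1 := h i (fun s j => !t s j) (fun s => ht s)
  have h2 : (fun j => !(t 0 j && t 1 j)) = fun j => (!t 0 j || !t 1 j) := by
    funext j
    exact Bool.not_and _ _
  rw [h2]
  exact h1

theorem t3_dual_sat {V : Type} (F : Set (Con ar V)) : Sat (t3_dual rel) F ↔ Sat rel F := by
  constructor
  · rintro ⟨x, hx⟩
    exact ⟨fun v => !x v, fun c hc => hx c hc⟩
  · rintro ⟨x, hx⟩
    refine ⟨fun v => !x v, fun c hc => ?_⟩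
    show (fun j => !(!x (c.2 j))) ∈ rel c.1
    have h2 : (fun j => !(!x (c.2 j))) = fun j => x (c.2 j) := by
      funext j
      exact Bool.not_not _
    rw [h2]
    exact hx c hc

/-- the theorem on OR-closed languages, from the one on AND-closed languages (hypothesis `hT2`,
the statement of task T2) -/
theorem upper_or [Fintype ι] (hT2 : ∀ rel' : ∀ i, Set (Fin (ar i) → Bool),
      Pol rel' (fun x : Fin 2 → Bool => x 0 && x 1) →
      ∃ C : ℕ, ∀ n : ℕ, ∃ l : List (Set (Con ar (Fin n)) → ℝ), MProg (conBits ar (Fin n)) l ∧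
        l.length ≤ C * (n + 1) ^ C ∧ (fun F => if Sat rel' F then (0 : ℝ) else 1) ∈ l)
    (h : Pol rel (fun x : Fin 2 → Bool => x 0 || x 1)) :
    ∃ C : ℕ, ∀ n : ℕ, ∃ l : List (Set (Con ar (Fin n)) → ℝ), MProg (conBits ar (Fin n)) l ∧
      l.length ≤ C * (n + 1) ^ C ∧ (fun F => if Sat rel F then (0 : ℝ) else 1) ∈ l := by
  obtain ⟨C, hC⟩ := hT2 (t3_dual rel) (t3_dual_pol h)
  refine ⟨C, fun n => ?_⟩
  obtain ⟨l, h1, h2, h3⟩ := hC n
  refine ⟨l, h1, h2, ?_⟩
  have e : (fun F : Set (Con ar (Fin n)) => if Sat rel F then (0 : ℝ) else 1) =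
      fun F => if Sat (t3_dual rel) F then (0 : ℝ) else 1 := by
    funext F
    by_cases hF : Sat rel F
    · rw [if_pos hF, if_pos ((t3_dual_sat F).2 hF)]
    · rw [if_neg hF, if_neg (fun h' => hF ((t3_dual_sat F).1 h'))]
  rw [e]
  exact h3

theorem t3_unsat {V : Type} (b : Bool) (h : Pol rel (fun _ : Fin 1 → Bool => b))
    (F : Set (Con ar V)) : ¬ Sat rel F ↔ ∃ c : Con ar V, rel c.1 = ∅ ∧ c ∈ F := by
  constructor
  · intro hF
    by_contra hcon
    apply hF
    refine ⟨fun _ => b, fun c hc => ?_⟩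
    have hne : (rel c.1).Nonempty := by
      rw [Set.nonempty_iff_ne_empty]
      intro h0
      exact hcon ⟨c, h0, hc⟩
    obtain ⟨t, ht⟩ := hne
    exact h c.1 (fun _ => t) (fun _ => ht)
  · rintro ⟨c, hc, hcF⟩ ⟨x, hx⟩
    have := hx c hcF
    rw [hc] at this
    exact this

theorem t3_card [Fintype ι] : ∃ A : ℕ, ∀ n : ℕ,
    Fintype.card (Con ar (Fin n)) ≤ Fintype.card ι * (n + 1) ^ A := by
  refine ⟨∑ i, ar i, fun n => ?_⟩
  rw [Fintype.card_sigma]
  have h1 : ∀ i ∈ (univ : Finset ι), Fintype.card (Fin (ar i) → Fin n) ≤ (n + 1) ^ (∑ i, ar i) := by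
    intro i hi
    rw [Fintype.card_fun, Fintype.card_fin, Fintype.card_fin]
    calc n ^ ar i ≤ (n + 1) ^ ar i := Nat.pow_le_pow_left (Nat.le_succ n) _
      _ ≤ (n + 1) ^ (∑ i, ar i) := Nat.pow_le_pow_right (Nat.succ_pos n)
        (Finset.single_le_sum (f := ar) (fun _ _ => Nat.zero_le _) hi)
  calc _ ≤ (univ : Finset ι).card * (n + 1) ^ (∑ i, ar i) := by
        have := Finset.sum_le_card_nsmul univ _ _ h1
        rwa [smul_eq_mul] at this
    _ = _ := by rw [Finset.card_univ]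

theorem upper_const [Fintype ι] (b : Bool) (h : Pol rel (fun _ : Fin 1 → Bool => b)) :
    ∃ C : ℕ, ∀ n : ℕ, ∃ l : List (Set (Con ar (Fin n)) → ℝ), MProg (conBits ar (Fin n)) l ∧
      l.length ≤ C * (n + 1) ^ C ∧ (fun F => if Sat rel F then (0 : ℝ) else 1) ∈ l := by
  obtain ⟨A, hA⟩ := t3_card (ar := ar)
  refine ⟨2 * Fintype.card ι + 1 + A, fun n => ?_⟩
  set s : Finset (Con ar (Fin n)) := univ.filter (fun c => rel c.1 = ∅) with hs
  have h0 : (fun _ : Set (Con ar (Fin n)) => (0 : ℝ)) ∈ conBits ar (Fin n) := Or.inr (Or.inl rfl)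
  have s1 : p11_R (conBits ar (Fin n)) ∅ (s.card * 1) {f | ∃ c ∈ s,
      f = p11_ind (fun F : Set (Con ar (Fin n)) => c ∈ F)} :=
    p11_family s (fun c => p11_ind (fun F : Set (Con ar (Fin n)) => c ∈ F))
      (fun c _ => p11_input (Or.inl ⟨c, rfl⟩))
  have s2 := p11_bigor (inp := conBits ar (Fin n))
    (A := {f | ∃ c ∈ s, f = p11_ind (fun F : Set (Con ar (Fin n)) => c ∈ F)}) h0 s
    (fun c F => c ∈ F) (fun c hc => ⟨c, hc, rfl⟩)
  obtain ⟨l, hl, -, hl2, hl3⟩ := p11_trans s1 s2 [] MProg.nil (fun f hf => absurd hf (by simp))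
  refine ⟨l, hl, ?_, ?_⟩
  · have h1 : s.card ≤ Fintype.card (Con ar (Fin n)) := Finset.card_le_univ s
    have h2 := hA n
    have h3 : 1 ≤ (n + 1) ^ A := Nat.one_le_pow _ _ (Nat.succ_pos n)
    calc l.length ≤ 2 * (Fintype.card ι * (n + 1) ^ A) + 1 := by
          rw [List.length_nil] at hl3
          omega
      _ ≤ (2 * Fintype.card ι + 1) * (n + 1) ^ A := by nlinarith
      _ ≤ (2 * Fintype.card ι + 1 + A) * (n + 1) ^ (2 * Fintype.card ι + 1 + A) := by
          apply Nat.mul_le_mul (by omega)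
          exact Nat.pow_le_pow_right (Nat.succ_pos n) (by omega)
  · have h3 := hl2 _ rfl
    have e : (fun F : Set (Con ar (Fin n)) => if Sat rel F then (0 : ℝ) else 1) =
        p11_ind (fun F : Set (Con ar (Fin n)) => ∃ c ∈ s, c ∈ F) := by
      funext F
      have hiff := t3_unsat b h F
      unfold p11_ind
      by_cases hF : Sat rel F
      · rw [if_pos hF, if_neg]
        rintro ⟨c, hc, hcF⟩
        exact (hiff.2 ⟨c, (Finset.mem_filter.1 hc).2, hcF⟩) hF
      · rw [if_neg hF, if_pos]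
        obtain ⟨c, hc, hcF⟩ := hiff.1 hF
        exact ⟨c, Finset.mem_filter.2 ⟨Finset.mem_univ _, hc⟩, hcF⟩
    rw [e]
    exact h3

end H630SD
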