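import Pool.Agent.H630SD.Model
import Pool.Agent.H630XR.P11

/-!
# T4: majority-closed relations and 2-SAT
-/

set_option autoImplicit false

open scoped Classical
open Finset

namespace H630SD

open H630VC H630XR

variable {ι : Type} {ar : ι → ℕ} {rel : ∀ i, Set (Fin (ar i) → Bool)}

theorem t4_agree (h : Pol rel
    (fun x : Fin 3 → Bool => (x 0 && x 1) || (x 0 && x 2) || (x 1 && x 2))) (i : ι)
    (hne : (rel i).Nonempty) (t : Fin (ar i) → Bool)
    (ht : ∀ j j', ∃ u ∈ rel i, u j = t j ∧ u j' = t j') :
    ∀ J : Finset (Fin (ar i)), ∃ u ∈ rel i, ∀ j ∈ J, u j = t j := by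
  intro J
  induction J using Finset.strongInduction with
  | H J ih =>
    by_cases hJ : 2 < J.card
    · obtain ⟨a, ha, b, hb, c, hc, hab, hac, hbc⟩ := Finset.two_lt_card.mp hJ
      obtain ⟨u1, hu1, h1⟩ := ih (J.erase a) (Finset.erase_ssubset ha)
      obtain ⟨u2, hu2, h2⟩ := ih (J.erase b) (Finset.erase_ssubset hb)
      obtain ⟨u3, hu3, h3⟩ := ih (J.erase c) (Finset.erase_ssubset hc)
      have hp := h i ![u1, u2, u3] (by
        intro s
        fin_cases s
        · exact hu1
        · exact hu2
        · exact hu3)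
      refine ⟨_, hp, ?_⟩
      intro j hj
      show ((u1 j && u2 j) || (u1 j && u3 j) || (u2 j && u3 j)) = t j
      by_cases hja : j = a
      · have e2 := h2 j (Finset.mem_erase.mpr ⟨by rw [hja]; exact hab, hj⟩)
        have e3 := h3 j (Finset.mem_erase.mpr ⟨by rw [hja]; exact hac, hj⟩)
        rw [e2, e3]
        cases u1 j <;> cases t j <;> rfl
      · have e1 := h1 j (Finset.mem_erase.mpr ⟨hja, hj⟩)
        by_cases hjb : j = b
        · have e3 := h3 j (Finset.mem_erase.mpr ⟨by rw [hjb]; exact hbc, hj⟩)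
          rw [e1, e3]
          cases u2 j <;> cases t j <;> rfl
        · have e2 := h2 j (Finset.mem_erase.mpr ⟨hjb, hj⟩)
          rw [e1, e2]
          cases u3 j <;> cases t j <;> rfl
    · have hJ' : J.card = 0 ∨ J.card = 1 ∨ J.card = 2 := by omega
      rcases hJ' with h0 | h1 | h2
      · obtain ⟨u, hu⟩ := hne
        refine ⟨u, hu, ?_⟩
        intro j hj
        rw [Finset.card_eq_zero.mp h0] at hj
        exact absurd hj (Finset.notMem_empty j)
      · obtain ⟨a, ha⟩ := Finset.card_eq_one.mp h1
        obtain ⟨u, hu, h3, _⟩ := ht a a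
        refine ⟨u, hu, ?_⟩
        intro j hj
        rw [ha, Finset.mem_singleton] at hj
        rw [hj]; exact h3
      · obtain ⟨a, b, _, hab⟩ := Finset.card_eq_two.mp h2
        obtain ⟨u, hu, h3, h4⟩ := ht a b
        refine ⟨u, hu, ?_⟩
        intro j hj
        rw [hab, Finset.mem_insert, Finset.mem_singleton] at hj
        rcases hj with hj | hj
        · rw [hj]; exact h3
        · rw [hj]; exact h4

theorem two_decomp (h : Pol rel
    (fun x : Fin 3 → Bool => (x 0 && x 1) || (x 0 && x 2) || (x 1 && x 2))) (i : ι)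
    (hne : (rel i).Nonempty) (t : Fin (ar i) → Bool)
    (ht : ∀ j j', ∃ u ∈ rel i, u j = t j ∧ u j' = t j') : t ∈ rel i := by
  obtain ⟨u, hu, h1⟩ := t4_agree h i hne t ht Finset.univ
  have : u = t := funext fun j => h1 j (Finset.mem_univ j)
  rw [← this]; exact hu

theorem t4_skew {V : Type} (E : V × Bool → V × Bool → Prop)
    (hskew : ∀ x a y b, E (x, a) (y, b) → E (y, !b) (x, !a)) (p q : V × Bool)
    (h : Relation.ReflTransGen E p q) :
    Relation.ReflTransGen E (q.1, !q.2) (p.1, !p.2) := by
  induction h with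
  | refl => exact Relation.ReflTransGen.refl
  | tail _ h2 ih =>
    exact Relation.ReflTransGen.head (hskew _ _ _ _ h2) ih

theorem two_sat {V : Type} [Finite V] (E : V × Bool → V × Bool → Prop)
    (hskew : ∀ x a y b, E (x, a) (y, b) → E (y, !b) (x, !a))
    (hno : ∀ x, ¬ (Relation.ReflTransGen E (x, false) (x, true) ∧
      Relation.ReflTransGen E (x, true) (x, false))) :
    ∃ y : V → Bool, ∀ p q, E p q → y p.1 = p.2 → y q.1 = q.2 := by
  let S : Set (Set (V × Bool)) :=
    {A | (∀ p q, p ∈ A → E p q → q ∈ A) ∧ ∀ v b, ¬ ((v, b) ∈ A ∧ (v, !b) ∈ A)}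
  have hS : S.Finite := Set.toFinite S
  have hne : S.Nonempty := ⟨∅, fun _ _ h _ => h, fun _ _ h => h.1⟩
  obtain ⟨A, hA⟩ := hS.exists_maximal hne
  have hcl : ∀ p q, p ∈ A → E p q → q ∈ A := hA.prop.1
  have hcon : ∀ v b, ¬ ((v, b) ∈ A ∧ (v, !b) ∈ A) := hA.prop.2
  have hcl' : ∀ p q, p ∈ A → Relation.ReflTransGen E p q → q ∈ A := by
    intro p q hp h
    induction h with
    | refl => exact hp
    | tail _ h2 ih => exact hcl _ _ ih h2
  have htot : ∀ v, (v, true) ∈ A ∨ (v, false) ∈ A := by
    intro v
    by_contra hv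
    push Not at hv
    have hva : ∀ a, (v, a) ∉ A := by
      intro a
      cases a
      · exact hv.2
      · exact hv.1
    obtain ⟨a, ha⟩ : ∃ a, ¬ Relation.ReflTransGen E (v, a) (v, !a) := by
      by_contra hcontra
      push Not at hcontra
      exact hno v ⟨hcontra false, hcontra true⟩
    have hB : A ∪ {q | Relation.ReflTransGen E (v, a) q} ∈ S := by
      constructor
      · rintro p q (hp | hp) hpq
        · exact Or.inl (hcl p q hp hpq)
        · exact Or.inr (Relation.ReflTransGen.tail hp hpq)
      · have key : ∀ w b, Relation.ReflTransGen E (v, a) (w, b) → (w, !b) ∈ A → False := by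
          intro w b h1 h2
          have h3 := t4_skew E hskew _ _ h1
          exact hva (!a) (hcl' _ _ h2 h3)
        rintro w b ⟨h1 | h1, h2 | h2⟩
        · exact hcon w b ⟨h1, h2⟩
        · apply key w (!b) h2
          rw [Bool.not_not]
          exact h1
        · exact key w b h1 h2
        · have h3 := t4_skew E hskew _ _ h2
          simp only [Bool.not_not] at h3
          exact ha (Relation.ReflTransGen.trans h1 h3)
    have hle : A ⊆ A ∪ {q | Relation.ReflTransGen E (v, a) q} := Set.subset_union_left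
    have h4 := hA.le_of_ge hB hle
    exact hva a (h4 (Or.inr Relation.ReflTransGen.refl))
  refine ⟨fun v => decide ((v, true) ∈ A), ?_⟩
  have hiff : ∀ p : V × Bool, decide ((p.1, true) ∈ A) = p.2 ↔ p ∈ A := by
    rintro ⟨v, b⟩
    cases b
    · constructor
      · intro h
        have h1 : (v, true) ∉ A := by simpa using h
        exact (htot v).resolve_left h1
      · intro h
        have h1 : (v, true) ∉ A := fun h2 => hcon v true ⟨h2, h⟩
        simpa using h1
    · simp
  intro p q hpq hp
  exact (hiff q).mpr (hcl p q ((hiff p).mp hp) hpq)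

end H630SD
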