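import Pool.Agent.H630SD.Model
import Pool.Agent.H630XR.P11
import Pool.Agent.H630SD.T4

/-!
# T6: polynomial-size monotone circuits for majority-closed languages (helper403)
-/

open scoped Classical
open Finset

namespace H630SD

open H630VC H630XR

variable {ι : Type} {ar : ι → ℕ} {rel : ∀ i, Set (Fin (ar i) → Bool)}

/-- the implications given by the constraint `c` -/
def t6_J {V : Type} (rel : ∀ i, Set (Fin (ar i) → Bool)) (c : Con ar V) (p q : V × Bool) : Prop :=
  ∃ j j', c.2 j = p.1 ∧ c.2 j' = q.1 ∧ ∀ u ∈ rel c.1, ¬ (u j = p.2 ∧ u j' = !q.2)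

/-- the implications -/
def t6_E {V : Type} (rel : ∀ i, Set (Fin (ar i) → Bool)) (F : Set (Con ar V)) (p q : V × Bool) :
    Prop := ∃ c, c ∈ F ∧ t6_J rel c p q

theorem t6_sound {V : Type} [Finite V] (h : Pol rel
    (fun x : Fin 3 → Bool => (x 0 && x 1) || (x 0 && x 2) || (x 1 && x 2))) (F : Set (Con ar V))
    (A : List (V × Bool)) (hA : ∀ p, p ∈ A) :
    ¬ Sat rel F ↔ ((∃ c, c ∈ F ∧ rel c.1 = ∅) ∨
      ∃ x : V, p11_F (t6_E rel F) A (x, false) (x, true) ∧
        p11_F (t6_E rel F) A (x, true) (x, false)) := by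
  constructor
  · intro hns
    by_contra hcon
    rw [not_or, not_exists, not_exists] at hcon
    obtain ⟨h1, h2⟩ := hcon
    have hTr : ∀ p q, Relation.ReflTransGen (t6_E rel F) p q → p11_F (t6_E rel F) A p q := by
      intro p q hpq
      induction hpq with
      | refl => exact p11_F_base _ A p p (Or.inr rfl)
      | tail _ hbc ih =>
        exact p11_F_trans _ A _ _ _ (hA _) ih (p11_F_base _ A _ _ (Or.inl hbc))
    obtain ⟨y, hy⟩ := two_sat (t6_E rel F) (by
      rintro x a z b ⟨c, hc, j, j', e1, e2, e3⟩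
      refine ⟨c, hc, j', j, e2, e1, fun u hu => ?_⟩
      rintro ⟨k1, k2⟩
      refine e3 u hu ⟨?_, k1⟩
      rw [k2, Bool.not_not]) (fun x hx => h2 x ⟨hTr _ _ hx.1, hTr _ _ hx.2⟩)
    apply hns
    refine ⟨y, fun c hc => ?_⟩
    have hne : (rel c.1).Nonempty := by
      rw [Set.nonempty_iff_ne_empty]
      intro hemp
      exact h1 c ⟨hc, hemp⟩
    refine two_decomp h c.1 hne _ fun j j' => ?_
    by_contra hno
    have hE : t6_E rel F (c.2 j, y (c.2 j)) (c.2 j', !(y (c.2 j'))) := by
      refine ⟨c, hc, j, j', rfl, rfl, fun u hu => ?_⟩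
      rintro ⟨k1, k2⟩
      refine hno ⟨u, hu, k1, ?_⟩
      rw [k2, Bool.not_not]
    have := hy _ _ hE rfl
    simp only at this
    cases hyy : y (c.2 j') <;> rw [hyy] at this <;> exact absurd this (by decide)
  · rintro (⟨c, hc, hemp⟩ | ⟨v, hv1, hv2⟩) ⟨x, hx⟩
    · have := hx c hc
      rw [hemp] at this
      exact this
    · have hmin := p11_F_min (t6_E rel F) (fun p q => x p.1 = p.2 → x q.1 = q.2) (fun p hp => hp)
        (fun p q r k1 k2 k => k2 (k1 k)) (by
          rintro p q ⟨c, hc, j, j', e1, e2, e3⟩ hp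
          by_contra hq
          refine e3 _ (hx c hc) ⟨?_, ?_⟩
          · show x (c.2 j) = p.2
            rw [e1]
            exact hp
          · show x (c.2 j') = !q.2
            rw [e2]
            cases h3 : x q.1 <;> cases h4 : q.2
            · rw [h3, h4] at hq; exact absurd rfl hq
            · rfl
            · rfl
            · rw [h3, h4] at hq; exact absurd rfl hq) A
      have k1 := hmin _ _ hv1
      have k2 := hmin _ _ hv2
      simp only at k1 k2
      cases hxv : x v
      · have := k1 hxv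
        rw [hxv] at this
        exact absurd this (by decide)
      · have := k2 hxv
        rw [hxv] at this
        exact absurd this (by decide)

/-- the number of gates -/
theorem t6_circ [Fintype ι] (h : Pol rel
    (fun x : Fin 3 → Bool => (x 0 && x 1) || (x 0 && x 2) || (x 1 && x 2))) (n : ℕ) :
    ∃ l : List (Set (Con ar (Fin n)) → ℝ), MProg (conBits ar (Fin n)) l ∧
      l.length ≤ 30 * (Fintype.card (Con ar (Fin n)) + 1) * (n + 1) ^ 3 ∧
      (fun F => if Sat rel F then (0 : ℝ) else 1) ∈ l := by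
  set A : List (Fin n × Bool) := (univ : Finset (Fin n × Bool)).toList with hA
  have hmem : ∀ p, p ∈ A := fun p => by rw [hA, Finset.mem_toList]; exact Finset.mem_univ p
  have hlen : A.length = 2 * n := by
    rw [hA, Finset.length_toList, Finset.card_univ, Fintype.card_prod, Fintype.card_bool, mul_comm,
      Fintype.card_fin]
  set e : Fin n × Bool → Fin n × Bool → Set (Con ar (Fin n)) → Prop :=
    fun p q F => t6_E rel F p q with he
  have h0 : (fun _ => (0 : ℝ)) ∈ conBits ar (Fin n) := Or.inr (Or.inl rfl)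
  have h1 : (fun _ => (1 : ℝ)) ∈ conBits ar (Fin n) := Or.inr (Or.inr rfl)
  -- the inputs
  set u : Con ar (Fin n) → Set (Con ar (Fin n)) → Prop := fun c F => c ∈ F with hu
  have s1 : p11_R (conBits ar (Fin n)) ∅ (Fintype.card (Con ar (Fin n)) * 1)
      {f | ∃ c ∈ (univ : Finset (Con ar (Fin n))), f = p11_ind (u c)} := by
    have := p11_family (inp := conBits ar (Fin n)) (A := ∅) (n := 1)
      (univ : Finset (Con ar (Fin n)))
      (fun c => p11_ind (u c)) (fun c _ => p11_input (Or.inl ⟨c, rfl⟩))
    rwa [Finset.card_univ] at this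
  -- the edges
  have s2 : p11_R (conBits ar (Fin n))
      {f | ∃ c ∈ (univ : Finset (Con ar (Fin n))), f = p11_ind (u c)}
      ((univ : Finset ((Fin n × Bool) × (Fin n × Bool))).card *
        (Fintype.card (Con ar (Fin n)) + 1))
      {f | ∃ j ∈ (univ : Finset ((Fin n × Bool) × (Fin n × Bool))),
        f = p11_ind (fun x => p11_F (fun p q => e p q x) [] j.1 j.2)} := by
    apply p11_family
    rintro ⟨p, q⟩ -
    by_cases hpq : p = q
    · have : p11_ind (fun x => p11_F (fun p q => e p q x) [] p q) =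
          fun _ : Set (Con ar (Fin n)) => (1 : ℝ) := by
        rw [p11_one]
        exact p11_ind_congr fun x => ⟨fun _ => trivial, fun _ => Or.inr hpq⟩
      simp only
      rw [this]
      exact p11_mono (p11_input h1) (Set.Subset.refl _) (Set.Subset.refl _) (by omega)
    · have : p11_ind (fun x => p11_F (fun p q => e p q x) [] p q) =
          p11_ind (fun x => ∃ c ∈ univ.filter (fun c => t6_J rel c p q), u c x) := by
        refine p11_ind_congr fun x => ?_
        constructor
        · rintro (⟨c, hc, hj⟩ | h)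
          · exact ⟨c, Finset.mem_filter.2 ⟨Finset.mem_univ _, hj⟩, hc⟩
          · exact absurd h hpq
        · rintro ⟨c, hc, hc'⟩
          exact Or.inl ⟨c, hc', (Finset.mem_filter.1 hc).2⟩
      simp only
      rw [this]
      have k1 : p11_R (conBits ar (Fin n))
          {f | ∃ c ∈ (univ : Finset (Con ar (Fin n))), f = p11_ind (u c)}
          ((univ.filter (fun c => t6_J rel c p q)).card + 1)
          {p11_ind (fun x => ∃ c ∈ univ.filter (fun c => t6_J rel c p q), u c x)} :=
        p11_bigor h0 (univ.filter (fun c => t6_J rel c p q)) u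
          (fun c _ => ⟨c, Finset.mem_univ _, rfl⟩)
      refine p11_mono k1 (Set.Subset.refl _) (Set.Subset.refl _) ?_
      have := Finset.card_le_univ (univ.filter (fun c : Con ar (Fin n) => t6_J rel c p q))
      omega
  have s3 := p11_F_gates e s2 A
  -- the conjunctions
  have s4 : p11_R (conBits ar (Fin n))
      {f | ∃ j ∈ (univ : Finset ((Fin n × Bool) × (Fin n × Bool))),
        f = p11_ind (fun x => p11_F (fun p q => e p q x) A j.1 j.2)}
      ((univ : Finset (Fin n)).card * 1)
      {f | ∃ v ∈ (univ : Finset (Fin n)), f = p11_ind (fun x =>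
        p11_F (fun p q => e p q x) A (v, false) (v, true) ∧
        p11_F (fun p q => e p q x) A (v, true) (v, false))} := by
    apply p11_family
    intro v _
    exact p11_gand (p := fun x => p11_F (fun p q => e p q x) A (v, false) (v, true))
      (q := fun x => p11_F (fun p q => e p q x) A (v, true) (v, false))
      ⟨((v, false), (v, true)), Finset.mem_univ _, rfl⟩
      ⟨((v, true), (v, false)), Finset.mem_univ _, rfl⟩
  have s5 : p11_R (conBits ar (Fin n))
      {f | ∃ v ∈ (univ : Finset (Fin n)), f = p11_ind (fun x =>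
        p11_F (fun p q => e p q x) A (v, false) (v, true) ∧
        p11_F (fun p q => e p q x) A (v, true) (v, false))} ((univ : Finset (Fin n)).card + 1)
      {p11_ind (fun x => ∃ v ∈ (univ : Finset (Fin n)),
        (p11_F (fun p q => e p q x) A (v, false) (v, true) ∧
        p11_F (fun p q => e p q x) A (v, true) (v, false)))} := by
    refine p11_bigor h0 univ (fun v x => p11_F (fun p q => e p q x) A (v, false) (v, true) ∧
        p11_F (fun p q => e p q x) A (v, true) (v, false)) ?_
    intro v _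
    exact ⟨v, Finset.mem_univ _, rfl⟩
  have s6 : p11_R (conBits ar (Fin n))
      {f | ∃ c ∈ (univ : Finset (Con ar (Fin n))), f = p11_ind (u c)}
      ((univ.filter (fun c : Con ar (Fin n) => rel c.1 = ∅)).card + 1)
      {p11_ind (fun x => ∃ c ∈ univ.filter (fun c : Con ar (Fin n) => rel c.1 = ∅), u c x)} :=
    p11_bigor h0 (univ.filter (fun c : Con ar (Fin n) => rel c.1 = ∅)) u
      (fun c _ => ⟨c, Finset.mem_univ _, rfl⟩)
  have s7 := p11_union (p11_trans (p11_trans s3 s4) s5) s6
  have s8 : p11_R (conBits ar (Fin n))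
      ({p11_ind (fun x => ∃ v ∈ (univ : Finset (Fin n)),
        (p11_F (fun p q => e p q x) A (v, false) (v, true) ∧
        p11_F (fun p q => e p q x) A (v, true) (v, false)))} ∪
      {p11_ind (fun x => ∃ c ∈ univ.filter (fun c : Con ar (Fin n) => rel c.1 = ∅), u c x)}) 1
      {p11_ind (fun x => (∃ c ∈ univ.filter (fun c : Con ar (Fin n) => rel c.1 = ∅), u c x) ∨
        ∃ v ∈ (univ : Finset (Fin n)),
        (p11_F (fun p q => e p q x) A (v, false) (v, true) ∧
        p11_F (fun p q => e p q x) A (v, true) (v, false)))} :=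
    p11_gor (p := fun x => ∃ c ∈ univ.filter (fun c : Con ar (Fin n) => rel c.1 = ∅), u c x)
      (q := fun x => ∃ v ∈ (univ : Finset (Fin n)),
        (p11_F (fun p q => e p q x) A (v, false) (v, true) ∧
        p11_F (fun p q => e p q x) A (v, true) (v, false))) (Or.inr rfl) (Or.inl rfl)
  obtain ⟨l, hl, -, hl2, hl3⟩ := p11_trans s1 (p11_trans s7 s8) [] MProg.nil
    (fun f hf => absurd hf (by simp))
  refine ⟨l, hl, ?_, ?_⟩
  · refine hl3.trans ?_
    have hc := Finset.card_le_univ (univ.filter (fun c : Con ar (Fin n) => rel c.1 = ∅))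
    rw [hlen, Finset.card_univ, Finset.card_univ, Fintype.card_prod, Fintype.card_prod,
      Fintype.card_bool, List.length_nil, Fintype.card_fin]
    set m := Fintype.card (Con ar (Fin n))
    set w := (univ.filter (fun c : Con ar (Fin n) => rel c.1 = ∅)).card
    have e3 : n ^ 2 * m ≤ n ^ 2 * m := le_refl _
    nlinarith [Nat.zero_le (n ^ 3 * m), Nat.zero_le (n ^ 2 * m), Nat.zero_le (n * m),
      Nat.zero_le (n ^ 3), Nat.zero_le (n ^ 2), Nat.zero_le n, Nat.zero_le m]
  · have hfin := hl2 _ rfl
    have heq : (fun F => if Sat rel F then (0 : ℝ) else 1) =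
        p11_ind (fun x => (∃ c ∈ univ.filter (fun c : Con ar (Fin n) => rel c.1 = ∅), u c x) ∨
        ∃ v ∈ (univ : Finset (Fin n)),
        (p11_F (fun p q => e p q x) A (v, false) (v, true) ∧
        p11_F (fun p q => e p q x) A (v, true) (v, false))) := by
      have h3 : (fun F => if Sat rel F then (0 : ℝ) else 1) =
          p11_ind (fun F : Set (Con ar (Fin n)) => ¬ Sat rel F) := by
        funext F
        unfold p11_ind
        by_cases hF : Sat rel F
        · rw [if_pos hF, if_neg (not_not.2 hF)]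
        · rw [if_neg hF, if_pos hF]
      rw [h3]
      refine p11_ind_congr fun F => ?_
      rw [t6_sound h F A hmem]
      refine or_congr ?_ ?_
      · constructor
        · rintro ⟨c, hc, hc'⟩
          exact ⟨c, Finset.mem_filter.2 ⟨Finset.mem_univ _, hc'⟩, hc⟩
        · rintro ⟨c, hc, hc'⟩
          exact ⟨c, hc', (Finset.mem_filter.1 hc).2⟩
      · constructor
        · rintro ⟨v, hv⟩
          exact ⟨v, Finset.mem_univ _, hv⟩
        · rintro ⟨v, -, hv⟩
          exact ⟨v, hv⟩
    rw [heq]
    exact hfin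

theorem t6_card [Fintype ι] (n : ℕ) : Fintype.card (Con ar (Fin n)) ≤
    Fintype.card ι * (n + 1) ^ (∑ i, ar i) := by
  rw [Fintype.card_sigma]
  have : ∀ i ∈ (univ : Finset ι), Fintype.card (Fin (ar i) → Fin n) ≤ (n + 1) ^ (∑ i, ar i) := by
    intro i _
    rw [Fintype.card_fun, Fintype.card_fin, Fintype.card_fin]
    calc n ^ ar i ≤ (n + 1) ^ ar i := Nat.pow_le_pow_left (Nat.le_succ n) _
      _ ≤ (n + 1) ^ (∑ i, ar i) := Nat.pow_le_pow_right (Nat.succ_pos n)
          (Finset.single_le_sum (f := ar) (fun j _ => Nat.zero_le _) (Finset.mem_univ i))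
  refine (Finset.sum_le_card_nsmul _ _ _ this).trans ?_
  rw [Finset.card_univ, smul_eq_mul]

theorem upper_maj [Fintype ι] (h : Pol rel
    (fun x : Fin 3 → Bool => (x 0 && x 1) || (x 0 && x 2) || (x 1 && x 2))) :
    ∃ C : ℕ, ∀ n : ℕ, ∃ l : List (Set (Con ar (Fin n)) → ℝ), MProg (conBits ar (Fin n)) l ∧
      l.length ≤ C * (n + 1) ^ C ∧ (fun F => if Sat rel F then (0 : ℝ) else 1) ∈ l := by
  set R := ∑ i, ar i with hR
  set K := Fintype.card ι with hK
  refine ⟨30 * (K + 1) + R + 3, fun n => ?_⟩
  obtain ⟨l, hl, hlen, hmem⟩ := t6_circ h n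
  refine ⟨l, hl, hlen.trans ?_, hmem⟩
  have h1 := t6_card (ar := ar) n
  have h2 : 1 ≤ (n + 1) ^ R := Nat.one_le_pow _ _ (Nat.succ_pos n)
  have h3 : Fintype.card (Con ar (Fin n)) + 1 ≤ (K + 1) * (n + 1) ^ R := by
    rw [add_mul, one_mul]
    exact add_le_add h1 h2
  calc 30 * (Fintype.card (Con ar (Fin n)) + 1) * (n + 1) ^ 3
      ≤ 30 * ((K + 1) * (n + 1) ^ R) * (n + 1) ^ 3 :=
        Nat.mul_le_mul_right _ (Nat.mul_le_mul_left _ h3)
    _ = 30 * (K + 1) * (n + 1) ^ (R + 3) := by rw [pow_add]; ring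
    _ ≤ (30 * (K + 1) + R + 3) * (n + 1) ^ (30 * (K + 1) + R + 3) := by
        refine Nat.mul_le_mul (by omega) (Nat.pow_le_pow_right (Nat.succ_pos n) (by omega))

end H630SD
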