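import Pool.Agent.H630SD.Model
import Pool.Agent.H630XR.P11

open scoped Classical
open Finset

namespace H630SD

open H630VC H630XR

variable {ι : Type} {ar : ι → ℕ} {rel : ∀ i, Set (Fin (ar i) → Bool)}

theorem t1_comp {r m : ℕ} {f : (Fin r → Bool) → Bool} (hf : Pol rel f)
    (g : Fin r → (Fin m → Bool) → Bool) (hg : ∀ s, Pol rel (g s)) :
    Pol rel (fun x => f fun s => g s x) :=
  fun i t ht => hf i (fun s j => g s fun k => t k j) fun s => hg s i t ht

theorem t1_proj {m : ℕ} (k : Fin m) : Pol rel (fun x : Fin m → Bool => x k) :=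
  fun _ _ ht => ht k

theorem t1_c3 {m : ℕ} {t : (Fin 3 → Bool) → Bool} (ht : Pol rel t)
    {g0 g1 g2 : (Fin m → Bool) → Bool} (h0 : Pol rel g0) (h1 : Pol rel g1) (h2 : Pol rel g2) :
    Pol rel (fun x => t ![g0 x, g1 x, g2 x]) := by
  have h := t1_comp ht (![g0, g1, g2]) (by
    intro s
    fin_cases s
    · exact h0
    · exact h1
    · exact h2)
  have e : (fun x => t fun s => (![g0, g1, g2] : Fin 3 → (Fin m → Bool) → Bool) s x) =
      fun x => t ![g0 x, g1 x, g2 x] := by
    funext x
    refine congrArg t ?_
    funext s
    fin_cases s <;> rfl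
  rw [e] at h
  exact h

theorem t1_c4 {m : ℕ} {t : (Fin 4 → Bool) → Bool} (ht : Pol rel t)
    {g0 g1 g2 g3 : (Fin m → Bool) → Bool} (h0 : Pol rel g0) (h1 : Pol rel g1) (h2 : Pol rel g2)
    (h3 : Pol rel g3) : Pol rel (fun x => t ![g0 x, g1 x, g2 x, g3 x]) := by
  have h := t1_comp ht (![g0, g1, g2, g3]) (by
    intro s
    fin_cases s
    · exact h0
    · exact h1
    · exact h2
    · exact h3)
  have e : (fun x => t fun s => (![g0, g1, g2, g3] : Fin 4 → (Fin m → Bool) → Bool) s x) =
      fun x => t ![g0 x, g1 x, g2 x, g3 x] := by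
    funext x
    refine congrArg t ?_
    funext s
    fin_cases s <;> rfl
  rw [e] at h
  exact h

theorem t1_v2 (x : Fin 2 → Bool) : x = ![x 0, x 1] := by
  funext i
  fin_cases i <;> rfl

theorem t1_v3 (x : Fin 3 → Bool) : x = ![x 0, x 1, x 2] := by
  funext i
  fin_cases i <;> rfl

theorem t1_ext2 {g g' : (Fin 2 → Bool) → Bool} (h : ∀ a b, g ![a, b] = g' ![a, b]) : g = g' := by
  funext x
  rw [t1_v2 x]
  exact h _ _

theorem t1_ext3 {g g' : (Fin 3 → Bool) → Bool} (h : ∀ a b c, g ![a, b, c] = g' ![a, b, c]) :
    g = g' := by
  funext x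
  rw [t1_v3 x]
  exact h _ _ _

theorem t1_bin (hE : ¬ Easy rel) (g : (Fin 2 → Bool) → Bool) (hg : Pol rel g)
    (h0 : g ![false, false] = false) (h1 : g ![true, true] = true) :
    g ![false, true] = !g ![true, false] := by
  cases ha : g ![false, true] <;> cases hb : g ![true, false]
  · exfalso
    apply hE
    have e : g = fun x : Fin 2 → Bool => x 0 && x 1 := by
      apply t1_ext2
      intro a b
      cases a <;> cases b <;> simp [h0, h1, ha, hb]
    rw [e] at hg
    exact Or.inr (Or.inr (Or.inl hg))
  · rfl
  · rfl
  · exfalso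
    apply hE
    have e : g = fun x : Fin 2 → Bool => x 0 || x 1 := by
      apply t1_ext2
      intro a b
      cases a <;> cases b <;> simp [h0, h1, ha, hb]
    rw [e] at hg
    exact Or.inr (Or.inr (Or.inr (Or.inl hg)))

theorem t1_maj (hE : ¬ Easy rel) (g : (Fin 3 → Bool) → Bool) (hg : Pol rel g)
    (h : ∀ a b c, g ![a, b, c] = ((a && b) || (a && c) || (b && c))) : False := by
  apply hE
  have e : g = fun x : Fin 3 → Bool => (x 0 && x 1) || (x 0 && x 2) || (x 1 && x 2) := by
    apply t1_ext3
    intro a b c
    rw [h]
    rfl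
  rw [e] at hg
  exact Or.inr (Or.inr (Or.inr (Or.inr hg)))

theorem t1_ter (hE : ¬ Easy rel) (t : (Fin 3 → Bool) → Bool) (ht : Pol rel t)
    (h0 : t ![false, false, false] = false) (h1 : t ![true, true, true] = true) :
    xor (xor (t ![false, false, true]) (t ![false, true, false])) (t ![true, false, false]) =
      true := by
  have m1 : t ![false, false, true] = !t ![true, true, false] := by
    have h := t1_bin hE (fun x => t ![x 0, x 0, x 1])
      (t1_c3 ht (t1_proj 0) (t1_proj 0) (t1_proj 1)) (by simpa using h0) (by simpa using h1)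
    simpa using h
  have m2 : t ![false, true, false] = !t ![true, false, true] := by
    have h := t1_bin hE (fun x => t ![x 0, x 1, x 0])
      (t1_c3 ht (t1_proj 0) (t1_proj 1) (t1_proj 0)) (by simpa using h0) (by simpa using h1)
    simpa using h
  have m3 : t ![false, true, true] = !t ![true, false, false] := by
    have h := t1_bin hE (fun x => t ![x 0, x 1, x 1])
      (t1_c3 ht (t1_proj 0) (t1_proj 1) (t1_proj 1)) (by simpa using h0) (by simpa using h1)
    simpa using h
  have n1 : t ![true, true, false] = !t ![false, false, true] := by rw [m1, Bool.not_not]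
  have n2 : t ![true, false, true] = !t ![false, true, false] := by rw [m2, Bool.not_not]
  cases hp : t ![false, false, true] <;> cases hq : t ![false, true, false] <;>
    cases hr : t ![true, false, false] <;> rw [hp] at n1 <;> rw [hq] at n2 <;> rw [hr] at m3
  · exfalso
    refine t1_maj hE t ht ?_
    intro a b c
    cases a <;> cases b <;> cases c <;> simp [h0, h1, hp, hq, hr, n1, n2, m3]
  · rfl
  · rfl
  · exfalso
    refine t1_maj hE (fun x => t ![x 0, x 1, t ![x 0, x 1, x 2]])
      (t1_c3 ht (t1_proj 0) (t1_proj 1) (t1_c3 ht (t1_proj 0) (t1_proj 1) (t1_proj 2))) ?_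
    intro a b c
    cases a <;> cases b <;> cases c <;> simp [h0, h1, hp, hq, hr, n1, n2, m3]
  · rfl
  · exfalso
    refine t1_maj hE (fun x => t ![x 0, t ![x 0, x 1, x 2], x 2])
      (t1_c3 ht (t1_proj 0) (t1_c3 ht (t1_proj 0) (t1_proj 1) (t1_proj 2)) (t1_proj 2)) ?_
    intro a b c
    cases a <;> cases b <;> cases c <;> simp [h0, h1, hp, hq, hr, n1, n2, m3]
  · exfalso
    refine t1_maj hE (fun x => t ![t ![x 0, x 1, x 2], x 1, x 2])
      (t1_c3 ht (t1_c3 ht (t1_proj 0) (t1_proj 1) (t1_proj 2)) (t1_proj 1) (t1_proj 2)) ?_
    intro a b c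
    cases a <;> cases b <;> cases c <;> simp [h0, h1, hp, hq, hr, n1, n2, m3]
  · rfl

theorem t1_quad (hE : ¬ Easy rel) (h : (Fin 4 → Bool) → Bool) (hh : Pol rel h)
    (h0 : h ![false, false, false, false] = false) (h1 : h ![true, true, true, true] = true) :
    xor (xor (h ![false, false, false, true]) (h ![true, false, false, true]))
      (xor (h ![false, true, false, true]) (h ![true, true, false, true])) = false := by
  have a1 := t1_ter hE (fun x => h ![x 0, x 1, x 0, x 2])
    (t1_c4 hh (t1_proj 0) (t1_proj 1) (t1_proj 0) (t1_proj 2)) (by simpa using h0)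
    (by simpa using h1)
  have a2 := t1_ter hE (fun x => h ![x 0, x 1, x 2, x 0])
    (t1_c4 hh (t1_proj 0) (t1_proj 1) (t1_proj 2) (t1_proj 0)) (by simpa using h0)
    (by simpa using h1)
  have a3 := t1_bin hE (fun x => h ![x 0, x 1, x 0, x 1])
    (t1_c4 hh (t1_proj 0) (t1_proj 1) (t1_proj 0) (t1_proj 1)) (by simpa using h0)
    (by simpa using h1)
  have a4 := t1_bin hE (fun x => h ![x 0, x 0, x 1, x 0])
    (t1_c4 hh (t1_proj 0) (t1_proj 0) (t1_proj 1) (t1_proj 0)) (by simpa using h0)
    (by simpa using h1)
  simp only [Matrix.cons_val_zero, Matrix.cons_val_one, Matrix.cons_val] at a1 a2 a3 a4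
  revert a1 a2 a3 a4
  cases h ![false, false, false, true] <;> cases h ![true, false, false, true] <;>
    cases h ![false, true, false, true] <;> cases h ![true, true, false, true] <;>
    cases h ![false, true, false, false] <;> cases h ![true, false, true, false] <;>
    cases h ![false, false, true, false] <;> simp

/-- flip the coordinate `i` -/
def t1_flip {r : ℕ} (i : Fin r) (u : Fin r → Bool) : Fin r → Bool :=
  fun s => if s = i then !(u s) else u s

theorem t1_two (hE : ¬ Easy rel) {r : ℕ} (f : (Fin r → Bool) → Bool) (hf : Pol rel f)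
    (h0 : f (fun _ => false) = false) (h1 : f (fun _ => true) = true) (u : Fin r → Bool)
    {i j : Fin r} (hij : i ≠ j) :
    xor (xor (f u) (f (t1_flip i u))) (xor (f (t1_flip j u)) (f (t1_flip i (t1_flip j u)))) =
      false := by
  have key : ∀ α β : Bool, ∀ v : Fin r → Bool, v i = α → v j = β →
      (∀ s, s ≠ i → s ≠ j → v s = u s) →
      f v = f (fun s => (![α, β, false, true] : Fin 4 → Bool)
        (if s = i then 0 else if s = j then 1 else if u s = true then 3 else 2)) := by
    intro α β v hi hj hv
    refine congrArg f ?_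
    funext s
    by_cases h1 : s = i
    · subst h1; simp [hi]
    · by_cases h2 : s = j
      · subst h2; simp [h1, hj]
      · rw [hv s h1 h2]
        simp only [h1, h2, if_false]
        cases h3 : u s <;> simp
  have hq := t1_quad hE (fun x => f fun s =>
      x (if s = i then 0 else if s = j then 1 else if u s = true then 3 else 2))
    (t1_comp hf (fun s x => x (if s = i then 0 else if s = j then 1 else
      if u s = true then 3 else 2)) (fun s => t1_proj _))
    (by
      refine Eq.trans (congrArg f ?_) h0
      funext s
      by_cases h1 : s = i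
      · simp [h1]
      · by_cases h2 : s = j
        · subst h2; simp [h1]
        · cases h3 : u s <;> simp [h1, h2])
    (by
      refine Eq.trans (congrArg f ?_) h1
      funext s
      by_cases h1 : s = i
      · simp [h1]
      · by_cases h2 : s = j
        · subst h2; simp [h1]
        · cases h3 : u s <;> simp [h1, h2])
  have hji : j ≠ i := fun h => hij h.symm
  have e1 := key (u i) (u j) u rfl rfl (fun s _ _ => rfl)
  have e2 := key (!u i) (u j) (t1_flip i u) (by simp [t1_flip]) (by simp [t1_flip, hji])
    (fun s hs _ => by simp [t1_flip, hs])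
  have e3 := key (u i) (!u j) (t1_flip j u) (by simp [t1_flip, hij]) (by simp [t1_flip])
    (fun s _ hs => by simp [t1_flip, hs])
  have e4 := key (!u i) (!u j) (t1_flip i (t1_flip j u)) (by simp [t1_flip, hij])
    (by simp [t1_flip, hji]) (fun s hs hs' => by simp [t1_flip, hs, hs'])
  rw [e1, e2, e3, e4]
  cases hu : u i <;> cases hu' : u j <;> simp only [Bool.not_true, Bool.not_false] <;>
    revert hq <;>
    generalize f (fun s => (![false, false, false, true] : Fin 4 → Bool)
        (if s = i then 0 else if s = j then 1 else if u s = true then 3 else 2)) = A <;>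
    generalize f (fun s => (![true, false, false, true] : Fin 4 → Bool)
        (if s = i then 0 else if s = j then 1 else if u s = true then 3 else 2)) = B <;>
    generalize f (fun s => (![false, true, false, true] : Fin 4 → Bool)
        (if s = i then 0 else if s = j then 1 else if u s = true then 3 else 2)) = C <;>
    generalize f (fun s => (![true, true, false, true] : Fin 4 → Bool)
        (if s = i then 0 else if s = j then 1 else if u s = true then 3 else 2)) = D <;>
    revert A B C D <;> decide

theorem t1_flip_flip {r : ℕ} (i : Fin r) (u : Fin r → Bool) : t1_flip i (t1_flip i u) = u := by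
  funext s
  by_cases h : s = i <;> simp [t1_flip, h]

/-- flip the coordinates in `S` -/
def t1_fl {r : ℕ} (S : Finset (Fin r)) (u : Fin r → Bool) : Fin r → Bool :=
  fun s => if s ∈ S then !(u s) else u s

theorem t1_fl_insert {r : ℕ} {S : Finset (Fin r)} {i : Fin r} (hi : i ∉ S) (u : Fin r → Bool) :
    t1_fl (insert i S) u = t1_flip i (t1_fl S u) := by
  funext s
  by_cases h : s = i
  · subst h; simp [t1_fl, t1_flip, hi]
  · simp [t1_fl, t1_flip, h]

theorem t1_fl_to {r : ℕ} (u v : Fin r → Bool) :
    t1_fl (univ.filter fun s => u s ≠ v s) u = v := by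
  funext s
  simp only [t1_fl, mem_filter, mem_univ, true_and]
  cases u s <;> cases v s <;> simp

theorem t1_D (hE : ¬ Easy rel) {r : ℕ} (f : (Fin r → Bool) → Bool) (hf : Pol rel f)
    (h0 : f (fun _ => false) = false) (h1 : f (fun _ => true) = true) (i : Fin r)
    (S : Finset (Fin r)) (u : Fin r → Bool) :
    xor (f (t1_flip i (t1_fl S u))) (f (t1_fl S u)) = xor (f (t1_flip i u)) (f u) := by
  induction S using Finset.induction_on with
  | empty =>
    have : t1_fl ∅ u = u := by funext s; simp [t1_fl]
    rw [this]
  | insert j S hj ih =>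
    rw [t1_fl_insert hj, ← ih]
    by_cases hij : i = j
    · subst hij
      rw [t1_flip_flip]
      exact Bool.xor_comm _ _
    · have h := t1_two hE f hf h0 h1 (t1_fl S u) hij
      revert h
      generalize f (t1_fl S u) = A
      generalize f (t1_flip i (t1_fl S u)) = B
      generalize f (t1_flip j (t1_fl S u)) = C
      generalize f (t1_flip i (t1_flip j (t1_fl S u))) = D
      revert A B C D
      decide

theorem t1_idem (hE : ¬ Easy rel) {r : ℕ} (f : (Fin r → Bool) → Bool) (hf : Pol rel f)
    (h0 : f (fun _ => false) = false) (h1 : f (fun _ => true) = true) (a b c : Fin r → Bool) :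
    xor (xor (f a) (f b)) (xor (f c) (f fun s => xor (xor (a s) (b s)) (c s))) = false := by
  have hD : ∀ (i : Fin r) (u v : Fin r → Bool),
      xor (f (t1_flip i u)) (f u) = xor (f (t1_flip i v)) (f v) := by
    intro i u v
    have h := t1_D hE f hf h0 h1 i (univ.filter fun s => u s ≠ v s) u
    rw [t1_fl_to] at h
    exact h.symm
  have hS : ∀ (S : Finset (Fin r)) (u v : Fin r → Bool),
      xor (f (t1_fl S u)) (f u) = xor (f (t1_fl S v)) (f v) := by
    intro S
    induction S using Finset.induction_on with
    | empty =>
      intro u v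
      have : ∀ w : Fin r → Bool, t1_fl ∅ w = w := fun w => by funext s; simp [t1_fl]
      rw [this, this, Bool.xor_self, Bool.xor_self]
    | insert j S hj ih =>
      intro u v
      rw [t1_fl_insert hj, t1_fl_insert hj]
      have h1 := hD j (t1_fl S u) (t1_fl S v)
      have h2 := ih u v
      revert h1 h2
      generalize f (t1_flip j (t1_fl S u)) = A
      generalize f (t1_flip j (t1_fl S v)) = B
      generalize f (t1_fl S u) = C
      generalize f (t1_fl S v) = D
      generalize f u = E
      generalize f v = F
      revert A B C D E F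
      decide
  have h := hS (univ.filter fun s => b s ≠ c s) b a
  rw [t1_fl_to] at h
  have e : t1_fl (univ.filter fun s => b s ≠ c s) a = fun s => xor (xor (a s) (b s)) (c s) := by
    funext s
    simp only [t1_fl, mem_filter, mem_univ, true_and]
    cases a s <;> cases b s <;> cases c s <;> simp
  rw [e] at h
  revert h
  generalize f a = A
  generalize f b = B
  generalize f c = C
  generalize f (fun s => xor (xor (a s) (b s)) (c s)) = D
  revert A B C D
  decide

theorem affine_of_pol (hE : ¬ Easy rel) {r : ℕ} (f : (Fin r → Bool) → Bool) (hf : Pol rel f) :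
    f (fun _ => false) ≠ f (fun _ => true) ∧ ∀ a b c : Fin r → Bool,
      xor (xor (f a) (f b)) (xor (f c) (f fun s => xor (xor (a s) (b s)) (c s))) = false := by
  have hu : Pol rel (fun x : Fin 1 → Bool => f fun _ => x 0) :=
    t1_comp hf (fun _ x => x 0) (fun _ => t1_proj 0)
  have hne : f (fun _ => false) ≠ f (fun _ => true) := by
    intro h
    apply hE
    cases hc : f (fun _ => false)
    · have e : (fun x : Fin 1 → Bool => f fun _ => x 0) = fun _ => false := by
        funext x
        cases hx : x 0
        · exact hc
        · rw [← h]; exact hc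
      rw [e] at hu
      exact Or.inl hu
    · have e : (fun x : Fin 1 → Bool => f fun _ => x 0) = fun _ => true := by
        funext x
        cases hx : x 0
        · exact hc
        · rw [← h]; exact hc
      rw [e] at hu
      exact Or.inr (Or.inl hu)
  refine ⟨hne, ?_⟩
  intro a b c
  cases h0 : f (fun _ => false)
  · have h1 : f (fun _ => true) = true := by
      rw [h0] at hne
      cases h : f (fun _ => true)
      · exact absurd h.symm hne
      · rfl
    exact t1_idem hE f hf h0 h1 a b c
  · have h1 : f (fun _ => true) = false := by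
      rw [h0] at hne
      cases h : f (fun _ => true)
      · rfl
      · exact absurd h.symm hne
    have e : (fun x : Fin 1 → Bool => f fun _ => x 0) = fun x => !x 0 := by
      funext x
      cases hx : x 0
      · exact h0
      · exact h1
    rw [e] at hu
    have hn : Pol rel (fun x : Fin r → Bool => !f x) := t1_comp hu (fun _ x => f x) (fun _ => hf)
    have h := t1_idem hE (fun x => !f x) hn (by rw [h0]; rfl) (by rw [h1]; rfl) a b c
    revert h
    generalize f a = A
    generalize f b = B
    generalize f c = C
    generalize f (fun s => xor (xor (a s) (b s)) (c s)) = D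
    revert A B C D
    decide

end H630SD
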