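import Pool.Agent.H630SD.Walk
import Pool.Agent.H630SD.T1

/-! From parity systems to instances of a hard language (helper630) -/

open scoped Classical
open Finset

namespace H630SD

open H630VC H630XR H630GI

/-- the columns of the table of all solutions of `y 0 + y 1 + y 2 + y 3 = β` -/
def colv (β : Bool) (j : Fin 4) (v : Fin 3 → Bool) : Bool :=
  if j = 0 then v 0 else if j = 1 then v 1 else if j = 2 then v 2 else
    xor β (xor (xor (v 0) (v 1)) (v 2))

theorem colv_ne (β : Bool) (j j' : Fin 4) (h : j ≠ j') :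
    ∃ v : Fin 3 → Bool, colv β j v ≠ colv β j' v := by
  revert β j j'
  decide

/-- a fixed enumeration of the solutions -/
noncomputable def en8 : Fin 8 ≃ (Fin 3 → Bool) :=
  Fintype.equivOfCardEq (by simp)

/-- the columns as points of the cube of dimension eight -/
noncomputable def col (β : Bool) (j : Fin 4) : Fin 8 → Bool := fun s => colv β j (en8 s)

theorem col_inj (β : Bool) : Function.Injective (col β) := by
  intro j j' h
  by_contra hne
  obtain ⟨v, hv⟩ := colv_ne β j j' hne
  apply hv
  have := congrFun h (en8.symm v)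
  simpa [col] using this

theorem col_row (β : Bool) (y : Fin 4 → Bool)
    (hy : xor (xor (y 0) (y 1)) (xor (y 2) (y 3)) = β) :
    ∃ s : Fin 8, ∀ j, col β j s = y j := by
  refine ⟨en8.symm fun i => y (Fin.castSucc i), fun j => ?_⟩
  unfold col
  rw [Equiv.apply_symm_apply]
  subst hy
  have h2 : (Fin.castSucc (2 : Fin 3)) = (2 : Fin 4) := rfl
  fin_cases j
  · simp [colv]
  · simp [colv]
  · simp only [colv]
    simp [h2]
  · show xor (xor (xor (y 0) (y 1)) (xor (y 2) (y 3))) (xor (xor (y 0) (y 1)) (y 2)) = y 3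
    generalize y 0 = w0
    generalize y 1 = w1
    generalize y 2 = w2
    generalize y 3 = w3
    revert w0 w1 w2 w3
    decide

theorem col_pol {ι : Type} {ar : ι → ℕ} {rel : ∀ i, Set (Fin (ar i) → Bool)}
    (hE : ¬ Easy rel) (β : Bool) (f : (Fin 8 → Bool) → Bool) (hf : Pol rel f) :
    xor (xor (f (col β 0)) (f (col β 1))) (xor (f (col β 2)) (f (col β 3))) = β := by
  obtain ⟨h1, h2⟩ := affine_of_pol hE f hf
  have h3 := h2 (col β 0) (col β 1) (col β 2)
  cases β with
  | false =>
    have e : (fun s => xor (xor (col false 0 s) (col false 1 s)) (col false 2 s)) = col false 3 := by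
      funext s
      simp [col, colv]
    rw [e] at h3
    exact h3
  | true =>
    have e : (fun s => xor (xor (col true 0 s) (col true 1 s)) (col true 2 s)) =
        fun s => xor (xor (col true 3 s) false) true := by
      funext s
      simp [col, colv]
    have h4 := h2 (col true 3) (fun _ => false) (fun _ => true)
    rw [e] at h3
    revert h1 h3 h4
    generalize f (fun s => xor (xor (col true 3 s) false) true) = w
    generalize f (col true 0) = w0
    generalize f (col true 1) = w1
    generalize f (col true 2) = w2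
    generalize f (col true 3) = w3
    generalize f (fun _ => false) = w4
    generalize f (fun _ => true) = w5
    revert w w0 w1 w2 w3 w4 w5
    decide

variable {k b : ℕ}

/-- the right-hand side of the equation of a clause of width four -/
def vb (c : Cl (Fin b) 4) : Bool := !(xor (xor (c 0).2 (c 1).2) (xor (c 2).2 (c 3).2))

theorem oddSat_iff4 (x : Fin b → Bool) (c : Cl (Fin b) 4) :
    OddSat x c ↔ xor (xor (x (c 0).1) (x (c 1).1)) (xor (x (c 2).1) (x (c 3).1)) = vb c := by
  rw [H630GI.oddSat_iff]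
  unfold vb
  have e1 : par (fun j => x (c j).1) = bz (x (c 0).1) + bz (x (c 1).1) + bz (x (c 2).1) +
      bz (x (c 3).1) := by
    unfold par
    rw [Fin.sum_univ_four]
  have e2 : (vl c : ZMod 2) = 1 + 4 + (bz (c 0).2 + bz (c 1).2 + bz (c 2).2 + bz (c 3).2) := by
    unfold vl
    rw [Fin.sum_univ_four]
    norm_num
  rw [e1, e2]
  generalize x (c 0).1 = w0
  generalize x (c 1).1 = w1
  generalize x (c 2).1 = w2
  generalize x (c 3).1 = w3
  generalize (c 0).2 = s0
  generalize (c 1).2 = s1
  generalize (c 2).2 = s2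
  generalize (c 3).2 = s3
  revert w0 w1 w2 w3 s0 s1 s2 s3
  decide

/-- the variables of a block: the given ones, and a table for each clause -/
abbrev Wv (k b : ℕ) : Type := Fin k × (Fin b ⊕ (Cl (Fin b) 4 × (Fin 8 → Bool)))

/-- the variable at the point `p` of the table of `c`; the columns are the given variables -/
noncomputable def tau (c : Cl (Fin b) 4) (p : Fin 8 → Bool) :
    Fin b ⊕ (Cl (Fin b) 4 × (Fin 8 → Bool)) :=
  if h : ∃ j, p = col (vb c) j then .inl (c h.choose).1 else .inr (c, p)

theorem tau_col (c : Cl (Fin b) 4) (j : Fin 4) : tau c (col (vb c) j) = .inl (c j).1 := by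
  have h : ∃ j', col (vb c) j = col (vb c) j' := ⟨j, rfl⟩
  unfold tau
  rw [dif_pos h]
  have : h.choose = j := (col_inj (vb c) h.choose_spec).symm
  rw [this]

section inst

variable {ι : Type} {ar : ι → ℕ} (rel : ∀ i, Set (Fin (ar i) → Bool)) {N : ℕ}

/-- the constraints that say that the table of `c` is a polymorphism -/
def gad (e : Wv k b → Fin N) (m : Fin k) (c : Cl (Fin b) 4) : Set (Con ar (Fin N)) :=
  {C | ∃ (i : ι) (t : Fin 8 → Fin (ar i) → Bool), (∀ s, t s ∈ rel i) ∧
    C = ⟨i, fun j => e (m, tau c fun s => t s j)⟩}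

/-- the instance of a formula -/
def inst (e : Wv k b → Fin N) (F : BF k b 4) : Set (Con ar (Fin N)) :=
  {C | ∃ m, ∃ c ∈ F m, C ∈ gad rel e m c}

variable {rel}

theorem odd_of_sat (hE : ¬ Easy rel) (e : Wv k b → Fin N) (F : BF k b 4)
    (h : Sat rel (inst rel e F)) (m : Fin k) : ∃ z : Fin b → Bool, ∀ c ∈ F m, OddSat z c := by
  obtain ⟨x, hx⟩ := h
  refine ⟨fun v => x (e (m, .inl v)), fun c hc => ?_⟩
  rw [oddSat_iff4]
  have hf : Pol rel (fun p : Fin 8 → Bool => x (e (m, tau c p))) := by
    intro i t ht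
    exact hx ⟨i, fun j => e (m, tau c fun s => t s j)⟩ ⟨m, c, hc, i, t, ht, rfl⟩
  have h1 := col_pol hE (vb c) _ hf
  simp only [tau_col] at h1
  exact h1

theorem sat_of_odd (e : Wv k b → Fin N) (he : Function.Injective e) (F : BF k b 4)
    (z : Fin k → Fin b → Bool) (hz : ∀ m, ∀ c ∈ F m, OddSat (z m) c) :
    Sat rel (inst rel e F) := by
  have hs : ∀ (m : Fin k) (c : Cl (Fin b) 4), ∃ s : Fin 8, OddSat (z m) c →
      ∀ j, col (vb c) j s = z m (c j).1 := by
    intro m c
    by_cases h : OddSat (z m) c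
    · obtain ⟨s, hs⟩ := col_row (vb c) (fun j => z m (c j).1) ((oddSat_iff4 _ _).1 h)
      exact ⟨s, fun _ => hs⟩
    · exact ⟨0, fun h' => absurd h' h⟩
  choose s hs using hs
  let val : Wv k b → Bool := fun w => match w with
    | (m, .inl v) => z m v
    | (m, .inr (c, p)) => p (s m c)
  refine ⟨Function.extend e val fun _ => false, ?_⟩
  rintro C ⟨m, c, hc, i, t, ht, rfl⟩
  have key : ∀ p : Fin 8 → Bool, val (m, tau c p) = p (s m c) := by
    intro p
    by_cases h : ∃ j, p = col (vb c) j
    · obtain ⟨j, rfl⟩ := h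
      rw [tau_col]
      exact (hs m c (hz m c hc) j).symm
    · unfold tau
      rw [dif_neg h]
  have e1 : (fun j => Function.extend e val (fun _ => false) (e (m, tau c fun s => t s j))) =
      t (s m c) := by
    funext j
    rw [he.extend_apply, key]
  show (fun j => Function.extend e val (fun _ => false) (e (m, tau c fun s => t s j))) ∈ rel i
  rw [e1]
  exact ht _

theorem inst_inputs (e : Wv k b → Fin N) (f : Set (Con ar (Fin N)) → ℝ)
    (hf : f ∈ conInputs ar (Fin N)) : (fun F => f (inst rel e F)) ∈ orInputs k b 4 := by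
  rcases hf with ⟨C, rfl⟩ | ⟨a, rfl⟩
  · refine Or.inl ⟨univ.filter fun p : Fin k × Cl (Fin b) 4 => C ∈ gad rel e p.1 p.2, ?_⟩
    funext F
    have h1 : C ∈ inst rel e F ↔ ∃ p ∈ univ.filter (fun p : Fin k × Cl (Fin b) 4 =>
        C ∈ gad rel e p.1 p.2), p.2 ∈ F p.1 := by
      constructor
      · rintro ⟨m, c, hc, h⟩
        exact ⟨(m, c), mem_filter.2 ⟨mem_univ _, h⟩, hc⟩
      · rintro ⟨p, hp, hc⟩
        exact ⟨p.1, p.2, hc, (mem_filter.1 hp).2⟩
    rw [← ind_congr h1]
    unfold ind
    by_cases h2 : C ∈ inst rel e F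
    · exact (if_pos h2).trans (if_pos h2).symm
    · exact (if_neg h2).trans (if_neg h2).symm
  · exact Or.inr ⟨a, rfl⟩

end inst

end H630SD
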