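import Pool.Agent.H630XR.Model
import Pool.Agent.H630VC.FreeModel

/-!
# Boolean constraint satisfaction problems and circuits: the definitions
-/

open scoped Classical
open Finset

namespace H630SD

open H630VC H630XR

/-- the constraints over the variables `V`: the name `i` of a relation and a tuple of variables; the
relation with the name `i` has arity `ar i` -/
abbrev Con {ι : Type} (ar : ι → ℕ) (V : Type) : Type := Σ i, (Fin (ar i) → V)

/-- some assignment satisfies all constraints in `F` -/
def Sat {ι V : Type} {ar : ι → ℕ} (rel : ∀ i, Set (Fin (ar i) → Bool)) (F : Set (Con ar V)) :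
    Prop := ∃ x : V → Bool, ∀ c ∈ F, (fun j => x (c.2 j)) ∈ rel c.1

/-- all relations of the language are closed under the operation `f` -/
def Pol {ι : Type} {ar : ι → ℕ} (rel : ∀ i, Set (Fin (ar i) → Bool)) {r : ℕ}
    (f : (Fin r → Bool) → Bool) : Prop :=
  ∀ i, ∀ t : Fin r → Fin (ar i) → Bool, (∀ s, t s ∈ rel i) → (fun j => f fun s => t s j) ∈ rel i

/-- the language is closed under one of the operations 0, 1, AND, OR, majority -/
def Easy {ι : Type} {ar : ι → ℕ} (rel : ∀ i, Set (Fin (ar i) → Bool)) : Prop :=
  Pol rel (fun _ : Fin 1 → Bool => false) ∨ Pol rel (fun _ : Fin 1 → Bool => true) ∨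
  Pol rel (fun x : Fin 2 → Bool => x 0 && x 1) ∨ Pol rel (fun x : Fin 2 → Bool => x 0 || x 1) ∨
  Pol rel (fun x : Fin 3 → Bool => (x 0 && x 1) || (x 0 && x 2) || (x 1 && x 2))

/-- the inputs of the circuits: for each constraint the bit that tells whether it belongs to the
instance, and real constants -/
def conInputs {ι : Type} (ar : ι → ℕ) (V : Type) : Set (Set (Con ar V) → ℝ) :=
  {f | (∃ c : Con ar V, f = fun F => if c ∈ F then 1 else 0) ∨ ∃ a : ℝ, f = fun _ => a}

/-- the inputs of Boolean circuits: the same bits, and the constants zero and one -/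
def conBits {ι : Type} (ar : ι → ℕ) (V : Type) : Set (Set (Con ar V) → ℝ) :=
  {f | (∃ c : Con ar V, f = fun F => if c ∈ F then 1 else 0) ∨ f = (fun _ => 0) ∨ f = fun _ => 1}

/-- the family `f r`, `r ∈ R`, of functions decides the satisfiability of the instances over `V`
with advantage `ξ`: on every instance at least a fraction `1/2 + ξ` of the values is right, that is
less than one if the instance is satisfiable and at least one otherwise -/
def DecidesSat {ι V R : Type} [Fintype R] {ar : ι → ℕ} (rel : ∀ i, Set (Fin (ar i) → Bool)) (ξ : ℝ)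
    (f : R → Set (Con ar V) → ℝ) : Prop :=
  ∀ F : Set (Con ar V), (Sat rel F →
      (1 / 2 + ξ) * Fintype.card R ≤ (univ.filter fun r => f r F < 1).card) ∧
    (¬ Sat rel F → (1 / 2 + ξ) * Fintype.card R ≤ (univ.filter fun r => 1 ≤ f r F).card)

end H630SD
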