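import Pool.Agent.H630SD.Model
import Pool.Agent.H630XR.P11

/-!
# T2: monotone circuits of polynomial size for languages closed under conjunction
-/

open scoped Classical
open Finset

namespace H630SD

open H630VC H630XR

variable {ι : Type} {ar : ι → ℕ} {rel : ∀ i, Set (Fin (ar i) → Bool)}

/-! ### unit propagation -/

/-- every tuple of the relation which is true on `S` is true at `j` -/
def t2_Pr (rel : ∀ i, Set (Fin (ar i) → Bool)) (i : ι) (S : Finset (Fin (ar i)))
    (j : Fin (ar i)) : Prop := ∀ t ∈ rel i, (∀ s ∈ S, t s = true) → t j = true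

/-- no tuple of the relation is true on `S` -/
def t2_No (rel : ∀ i, Set (Fin (ar i) → Bool)) (i : ι) (S : Finset (Fin (ar i))) : Prop :=
  ∀ t ∈ rel i, ¬ ∀ s ∈ S, t s = true

/-- pairs of a constraint and a set of its positions -/
abbrev t2_K (ar : ι → ℕ) (V : Type) : Type := Σ c : Con ar V, Finset (Fin (ar c.1))

/-- the variables which are forced to be true after `i` rounds -/
def t2_T {V : Type} (rel : ∀ i, Set (Fin (ar i) → Bool)) : ℕ → Set (Con ar V) → V → Prop
  | 0, _, _ => False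
  | i + 1, F, v => t2_T rel i F v ∨ ∃ k : t2_K ar V, (∃ j, k.1.2 j = v ∧ t2_Pr rel k.1.1 k.2 j) ∧
      k.1 ∈ F ∧ ∀ s ∈ k.2, t2_T rel i F (k.1.2 s)

theorem t2_T_sound {V : Type} (F : Set (Con ar V)) (x : V → Bool)
    (hx : ∀ c ∈ F, (fun j => x (c.2 j)) ∈ rel c.1) :
    ∀ i v, t2_T rel i F v → x v = true := by
  intro i
  induction i with
  | zero => exact fun v h => h.elim
  | succ i ih =>
    intro v h
    rcases h with h | ⟨k, ⟨j, rfl, hj⟩, hk, hs⟩
    · exact ih v h
    · exact hj _ (hx k.1 hk) (fun s hs' => ih _ (hs s hs'))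

theorem t2_T_mono {V : Type} (F : Set (Con ar V)) (i : ℕ) (v : V) (h : t2_T rel i F v) :
    t2_T rel (i + 1) F v := Or.inl h

theorem t2_T_congr {V : Type} (F : Set (Con ar V)) (i j : ℕ)
    (h : ∀ v, t2_T rel i F v ↔ t2_T rel j F v) (v : V) :
    t2_T rel (i + 1) F v ↔ t2_T rel (j + 1) F v := by
  refine or_congr (h v) (exists_congr fun k => and_congr_right fun _ => and_congr_right fun _ => ?_)
  exact forall_congr' fun s => imp_congr_right fun _ => h _

theorem t2_T_stable (n : ℕ) (F : Set (Con ar (Fin n))) (v : Fin n)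
    (h : t2_T rel (n + 1) F v) : t2_T rel n F v := by
  set f : ℕ → ℕ := fun i => (univ.filter fun v => t2_T rel i F v).card with hf
  have hsub : ∀ i, (univ.filter fun v => t2_T rel i F v) ⊆
      (univ.filter fun v => t2_T rel (i + 1) F v) := by
    intro i v hv
    rw [mem_filter] at hv ⊢
    exact ⟨hv.1, t2_T_mono F i v hv.2⟩
  have hmono : Monotone f := monotone_nat_of_le_succ fun i => card_le_card (hsub i)
  have hb : ∀ m, f m ≤ n := by
    intro m
    refine (card_filter_le _ _).trans ?_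
    simp
  have heq : ∀ m, f m = f (m + 1) → ∀ v, t2_T rel m F v ↔ t2_T rel (m + 1) F v := by
    intro m hm v
    have h1 := Finset.eq_of_subset_of_card_le (hsub m) hm.symm.le
    have h2 := Finset.ext_iff.1 h1 v
    simpa using h2
  have hstab : ∀ m, f m = f (m + 1) → f (m + 1) = f (m + 2) := by
    intro m hm
    have h1 := t2_T_congr (rel := rel) F m (m + 1) (heq m hm)
    show (univ.filter fun v => t2_T rel (m + 1) F v).card =
      (univ.filter fun v => t2_T rel (m + 2) F v).card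
    congr 1
    ext v
    simp only [mem_filter, mem_univ, true_and]
    exact h1 v
  have h3 : f (n + 1) = f n := Nat.stabilises_of_monotone hmono hb hstab (Nat.le_succ n)
  exact (heq n h3.symm v).2 h

/-- the conjunction of all tuples which are true on `S` -/
theorem t2_inf (h : Pol rel (fun x : Fin 2 → Bool => x 0 && x 1)) (i : ι)
    (S : Finset (Fin (ar i))) (hne : ¬ t2_No rel i S) :
    ∃ t ∈ rel i, (∀ s ∈ S, t s = true) ∧ ∀ j, t j = true → t2_Pr rel i S j := by
  unfold t2_No at hne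
  push Not at hne
  obtain ⟨t₀, ht₀, ht₀S⟩ := hne
  set X : Finset (Fin (ar i) → Bool) :=
    univ.filter fun t => t ∈ rel i ∧ ∀ s ∈ S, t s = true with hX
  have hXne : X.Nonempty := ⟨t₀, by rw [hX, mem_filter]; exact ⟨mem_univ _, ht₀, ht₀S⟩⟩
  obtain ⟨t, ht, htmin⟩ := X.exists_min_image (fun t => (univ.filter fun j => t j = true).card) hXne
  rw [hX, mem_filter] at ht
  refine ⟨t, ht.2.1, ht.2.2, ?_⟩
  intro j hj t' ht' ht'S
  by_contra hcon
  set u : Fin (ar i) → Bool := fun k => t k && t' k with hu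
  have hu1 : u ∈ rel i := by
    have := h i (fun s => if s = 0 then t else t') (fun s => by
      by_cases hs : s = 0
      · rw [if_pos hs]; exact ht.2.1
      · rw [if_neg hs]; exact ht')
    simpa using this
  have hu2 : u ∈ X := by
    rw [hX, mem_filter]
    refine ⟨mem_univ _, hu1, fun s hs => ?_⟩
    rw [hu]
    simp only [ht.2.2 s hs, ht'S s hs, Bool.and_self]
  have h1 := htmin u hu2
  have h2 : (univ.filter fun k => u k = true) ⊂ (univ.filter fun k => t k = true) := by
    rw [Finset.ssubset_iff_of_subset]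
    · refine ⟨j, by simp [hj], ?_⟩
      rw [mem_filter, not_and]
      intro _
      rw [hu]
      simp only [hj, Bool.true_and]
      exact hcon
    · intro k hk
      rw [mem_filter] at hk ⊢
      refine ⟨mem_univ _, ?_⟩
      have := hk.2
      rw [hu] at this
      simp only [Bool.and_eq_true] at this
      exact this.1
  exact absurd (Finset.card_lt_card h2) (not_lt.2 h1)

theorem t2_correct (h : Pol rel (fun x : Fin 2 → Bool => x 0 && x 1)) (n : ℕ)
    (F : Set (Con ar (Fin n))) : ¬ Sat rel F ↔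
    ∃ k : t2_K ar (Fin n), t2_No rel k.1.1 k.2 ∧ k.1 ∈ F ∧ ∀ s ∈ k.2, t2_T rel n F (k.1.2 s) := by
  constructor
  · intro hns
    by_contra hcon
    apply hns
    refine ⟨fun v => decide (t2_T rel n F v), ?_⟩
    intro c hc
    set S : Finset (Fin (ar c.1)) := univ.filter fun j => t2_T rel n F (c.2 j) with hS
    have h1 : ¬ t2_No rel c.1 S := by
      intro hno
      apply hcon
      refine ⟨⟨c, S⟩, hno, hc, fun s hs => ?_⟩
      have := (mem_filter.1 (show s ∈ univ.filter fun j => t2_T rel n F (c.2 j) from hs)).2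
      exact this
    obtain ⟨t, ht1, ht2, ht3⟩ := t2_inf h c.1 S h1
    have : (fun j => decide (t2_T rel n F (c.2 j))) = t := by
      funext j
      by_cases hj : t2_T rel n F (c.2 j)
      · have hjS : j ∈ S := by rw [hS, mem_filter]; exact ⟨mem_univ _, hj⟩
        rw [ht2 j hjS]
        exact decide_eq_true hj
      · have htj : t j = false := by
          by_contra hne
          have htj : t j = true := by
            cases hb : t j
            · exact absurd hb hne
            · rfl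
          apply hj
          apply t2_T_stable
          refine Or.inr ⟨⟨c, S⟩, ⟨j, rfl, ht3 j htj⟩, hc, fun s hs => ?_⟩
          exact (mem_filter.1 (show s ∈ univ.filter fun j => t2_T rel n F (c.2 j) from hs)).2
        rw [htj]
        exact decide_eq_false hj
    show (fun j => decide (t2_T rel n F (c.2 j))) ∈ rel c.1
    rw [this]
    exact ht1
  · rintro ⟨k, hno, hk, hs⟩ ⟨x, hx⟩
    exact hno _ (hx k.1 hk) (fun s hs' => t2_T_sound F x hx n _ (hs s hs'))

/-! ### circuits -/

section circ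
variable {I : Type*} {inp : Set (I → ℝ)}

theorem t2_bigand {J : Type*} {A : Set (I → ℝ)} (h1 : (fun _ => (1 : ℝ)) ∈ inp) (s : Finset J)
    (p : J → I → Prop) (h : ∀ j ∈ s, p11_ind (p j) ∈ A) :
    p11_R inp A (s.card + 1) {p11_ind (fun x => ∀ j ∈ s, p j x)} := by
  induction s using Finset.induction_on with
  | empty =>
    have h2 : p11_ind (fun x => ∀ j ∈ (∅ : Finset J), p j x) = fun _ : I => (1 : ℝ) := by
      rw [p11_one]
      exact p11_ind_congr fun x => ⟨fun _ => trivial,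
        fun _ j hj => absurd hj (Finset.notMem_empty j)⟩
    rw [h2]
    exact p11_input h1
  | insert j s hj ih =>
    have h2 := p11_keep (ih fun k hk => h k (Finset.mem_insert_of_mem hk))
    have h3 : p11_R inp (A ∪ {p11_ind (fun x => ∀ j ∈ s, p j x)}) 1
        {p11_ind (fun x => p j x ∧ ∀ j ∈ s, p j x)} :=
      p11_gand (Or.inl (h j (Finset.mem_insert_self j s))) (Or.inr rfl)
    have h4 : p11_ind (fun x => ∀ k ∈ insert j s, p k x) =
        p11_ind (fun x => p j x ∧ ∀ j ∈ s, p j x) := by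
      refine p11_ind_congr fun x => ?_
      constructor
      · intro hx
        exact ⟨hx j (Finset.mem_insert_self j s), fun k hk => hx k (Finset.mem_insert_of_mem hk)⟩
      · rintro ⟨h5, h6⟩ k hk
        rcases Finset.mem_insert.1 hk with rfl | hk
        · exact h5
        · exact h6 k hk
    rw [h4, Finset.card_insert_of_notMem hj]
    exact p11_trans h2 h3

end circ

variable [Fintype ι]

/-- the functions available after `i` rounds -/
def t2_A (rel : ∀ i, Set (Fin (ar i) → Bool)) (n i : ℕ) : Set (Set (Con ar (Fin n)) → ℝ) :=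
  {f | ∃ v ∈ (univ : Finset (Fin n)), f = p11_ind (fun F => t2_T rel i F v)} ∪
    {f | ∃ c ∈ (univ : Finset (Con ar (Fin n))), f = p11_ind (fun F => c ∈ F)}

theorem t2_one_mem (n : ℕ) : (fun _ => (1 : ℝ)) ∈ conBits ar (Fin n) := Or.inr (Or.inr rfl)

theorem t2_zero_mem (n : ℕ) : (fun _ => (0 : ℝ)) ∈ conBits ar (Fin n) := Or.inr (Or.inl rfl)

theorem t2_terms (r : ℕ) (hr : ∀ i, ar i ≤ r) (n i : ℕ) :
    p11_R (conBits ar (Fin n)) (t2_A rel n i) (Fintype.card (t2_K ar (Fin n)) * (r + 2))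
      {f | ∃ k ∈ (univ : Finset (t2_K ar (Fin n))),
        f = p11_ind (fun F => k.1 ∈ F ∧ ∀ s ∈ k.2, t2_T rel i F (k.1.2 s))} := by
  rw [← Finset.card_univ]
  apply p11_family
  intro k _
  have h1 : p11_R (conBits ar (Fin n)) (t2_A rel n i) (k.2.card + 1)
      {p11_ind (fun F => ∀ s ∈ k.2, t2_T rel i F (k.1.2 s))} :=
    t2_bigand (t2_one_mem n) k.2 (fun s F => t2_T rel i F (k.1.2 s))
      (fun s _ => Or.inl ⟨k.1.2 s, mem_univ _, rfl⟩)
  have h2 := p11_trans (p11_keep h1) (p11_gand (inp := conBits ar (Fin n))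
    (p := fun F => k.1 ∈ F) (q := fun F => ∀ s ∈ k.2, t2_T rel i F (k.1.2 s))
    (Or.inl (Or.inr ⟨k.1, mem_univ _, rfl⟩)) (Or.inr rfl))
  refine p11_mono h2 (Set.Subset.refl _) (Set.Subset.refl _) ?_
  have h3 : k.2.card ≤ r := by
    refine (Finset.card_le_univ k.2).trans ?_
    rw [Fintype.card_fin]
    exact hr _
  omega

theorem t2_round (r : ℕ) (hr : ∀ i, ar i ≤ r) (n i : ℕ) :
    p11_R (conBits ar (Fin n)) (t2_A rel n i) (Fintype.card (t2_K ar (Fin n)) * (r + 2) +
      n * (Fintype.card (t2_K ar (Fin n)) + 2)) (t2_A rel n (i + 1)) := by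
  set B : Set (Set (Con ar (Fin n)) → ℝ) := {f | ∃ k ∈ (univ : Finset (t2_K ar (Fin n))),
    f = p11_ind (fun F => k.1 ∈ F ∧ ∀ s ∈ k.2, t2_T rel i F (k.1.2 s))} with hB
  have h1 := p11_keep (t2_terms (rel := rel) r hr n i)
  have h2 : p11_R (conBits ar (Fin n)) (t2_A rel n i ∪ B)
      ((univ : Finset (Fin n)).card * (Fintype.card (t2_K ar (Fin n)) + 2))
      {f | ∃ v ∈ (univ : Finset (Fin n)), f = p11_ind (fun F => t2_T rel (i + 1) F v)} := by
    apply p11_family
    intro v _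
    set s : Finset (t2_K ar (Fin n)) :=
      univ.filter fun k => ∃ j, k.1.2 j = v ∧ t2_Pr rel k.1.1 k.2 j with hs
    have k1 : p11_R (conBits ar (Fin n)) (t2_A rel n i ∪ B) (s.card + 1)
        {p11_ind (fun F => ∃ k ∈ s, k.1 ∈ F ∧ ∀ s ∈ k.2, t2_T rel i F (k.1.2 s))} :=
      p11_bigor (t2_zero_mem n) s (fun k F => k.1 ∈ F ∧ ∀ s ∈ k.2, t2_T rel i F (k.1.2 s))
        (fun k _ => Or.inr ⟨k, mem_univ _, rfl⟩)
    have k2 := p11_trans (p11_keep k1) (p11_gor (inp := conBits ar (Fin n))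
      (p := fun F => t2_T rel i F v)
      (q := fun F => ∃ k ∈ s, k.1 ∈ F ∧ ∀ s ∈ k.2, t2_T rel i F (k.1.2 s))
      (Or.inl (Or.inl (Or.inl ⟨v, mem_univ _, rfl⟩))) (Or.inr rfl))
    have k3 : p11_ind (fun F => t2_T rel (i + 1) F v) = p11_ind (fun F => t2_T rel i F v ∨
        ∃ k ∈ s, k.1 ∈ F ∧ ∀ s ∈ k.2, t2_T rel i F (k.1.2 s)) := by
      refine p11_ind_congr fun F => or_congr Iff.rfl (exists_congr fun k => ?_)
      rw [hs, mem_filter]
      constructor
      · rintro ⟨h3, h4⟩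
        exact ⟨⟨mem_univ _, h3⟩, h4⟩
      · rintro ⟨⟨_, h3⟩, h4⟩
        exact ⟨h3, h4⟩
    rw [k3]
    refine p11_mono k2 (Set.Subset.refl _) (Set.Subset.refl _) ?_
    have := Finset.card_le_univ s
    omega
  rw [Finset.card_univ, Fintype.card_fin] at h2
  refine p11_mono (p11_trans h1 (p11_keep h2)) (Set.Subset.refl _) ?_ le_rfl
  rintro f (hf | hf)
  · exact Or.inr hf
  · exact Or.inl (Or.inl (Or.inr hf))

theorem t2_rounds (r : ℕ) (hr : ∀ i, ar i ≤ r) (n i : ℕ) :
    p11_R (conBits ar (Fin n)) ∅ (n + Fintype.card (Con ar (Fin n)) +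
      i * (Fintype.card (t2_K ar (Fin n)) * (r + 2) +
      n * (Fintype.card (t2_K ar (Fin n)) + 2))) (t2_A rel n i) := by
  induction i with
  | zero =>
    have h1 : p11_R (conBits ar (Fin n)) ∅ ((univ : Finset (Fin n)).card * 1)
        {f | ∃ v ∈ (univ : Finset (Fin n)), f = p11_ind (fun F => t2_T rel 0 F v)} := by
      apply p11_family
      intro v _
      have : p11_ind (fun F : Set (Con ar (Fin n)) => t2_T rel 0 F v) = fun _ => (0 : ℝ) := by
        rw [p11_zero]
        exact p11_ind_congr fun F => Iff.rfl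
      rw [this]
      exact p11_input (t2_zero_mem n)
    have h2 : p11_R (conBits ar (Fin n)) ∅ ((univ : Finset (Con ar (Fin n))).card * 1)
        {f | ∃ c ∈ (univ : Finset (Con ar (Fin n))), f = p11_ind (fun F => c ∈ F)} := by
      apply p11_family
      intro c _
      exact p11_input (Or.inl ⟨c, rfl⟩)
    refine p11_mono (p11_union h1 h2) (Set.Subset.refl _) (Set.Subset.refl _) ?_
    rw [Finset.card_univ, Finset.card_univ, Fintype.card_fin]
    omega
  | succ i ih =>
    refine p11_mono (p11_trans ih (t2_round r hr n i)) (Set.Subset.refl _)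
      (Set.Subset.refl _) (le_of_eq ?_)
    ring

theorem t2_all (h : Pol rel (fun x : Fin 2 → Bool => x 0 && x 1)) (r : ℕ) (hr : ∀ i, ar i ≤ r)
    (n : ℕ) : ∃ l : List (Set (Con ar (Fin n)) → ℝ), MProg (conBits ar (Fin n)) l ∧
      l.length ≤ n + Fintype.card (Con ar (Fin n)) + n * (Fintype.card (t2_K ar (Fin n)) * (r + 2) +
        n * (Fintype.card (t2_K ar (Fin n)) + 2)) + Fintype.card (t2_K ar (Fin n)) * (r + 2) +
        (Fintype.card (t2_K ar (Fin n)) + 1) ∧
      (fun F => if Sat rel F then (0 : ℝ) else 1) ∈ l := by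
  have h1 := p11_trans (t2_rounds (rel := rel) r hr n n) (t2_terms (rel := rel) r hr n n)
  set s : Finset (t2_K ar (Fin n)) := univ.filter fun k => t2_No rel k.1.1 k.2 with hs
  have h2 : p11_R (conBits ar (Fin n)) {f | ∃ k ∈ (univ : Finset (t2_K ar (Fin n))),
        f = p11_ind (fun F => k.1 ∈ F ∧ ∀ s ∈ k.2, t2_T rel n F (k.1.2 s))} (s.card + 1)
      {p11_ind (fun F => ∃ k ∈ s, k.1 ∈ F ∧ ∀ s ∈ k.2, t2_T rel n F (k.1.2 s))} :=
    p11_bigor (t2_zero_mem n) s (fun k F => k.1 ∈ F ∧ ∀ s ∈ k.2, t2_T rel n F (k.1.2 s))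
      (fun k _ => ⟨k, mem_univ _, rfl⟩)
  obtain ⟨l, hl, -, hl2, hl3⟩ := p11_trans h1 h2 [] MProg.nil (fun f hf => absurd hf (by simp))
  refine ⟨l, hl, ?_, ?_⟩
  · have h4 := Finset.card_le_univ s
    rw [List.length_nil] at hl3
    omega
  · have h3 : (fun F => if Sat rel F then (0 : ℝ) else 1) =
        p11_ind (fun F => ∃ k ∈ s, k.1 ∈ F ∧ ∀ s ∈ k.2, t2_T rel n F (k.1.2 s)) := by
      have h4 : (fun F => if Sat rel F then (0 : ℝ) else 1) =
          p11_ind (fun F : Set (Con ar (Fin n)) => ¬ Sat rel F) := by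
        funext F
        unfold p11_ind
        by_cases hF : Sat rel F
        · rw [if_pos hF, if_neg (not_not.2 hF)]
        · rw [if_neg hF, if_pos hF]
      rw [h4]
      refine p11_ind_congr fun F => ?_
      rw [t2_correct h n F]
      refine exists_congr fun k => and_congr_left fun _ => ?_
      rw [hs, mem_filter]
      exact ⟨fun h => ⟨mem_univ _, h⟩, fun h => h.2⟩
    rw [h3]
    exact hl2 _ rfl

theorem t2_card_con (r : ℕ) (hr : ∀ i, ar i ≤ r) (n : ℕ) :
    Fintype.card (Con ar (Fin n)) ≤ Fintype.card ι * (n + 1) ^ r := by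
  rw [Fintype.card_sigma]
  calc ∑ i, Fintype.card (Fin (ar i) → Fin n) ≤ ∑ _i : ι, (n + 1) ^ r := by
        refine Finset.sum_le_sum fun i _ => ?_
        rw [Fintype.card_fun, Fintype.card_fin, Fintype.card_fin]
        exact (Nat.pow_le_pow_left (Nat.le_succ n) _).trans
          (Nat.pow_le_pow_right (Nat.succ_pos n) (hr i))
    _ = _ := by rw [Finset.sum_const, Finset.card_univ, smul_eq_mul]

theorem t2_card_K (r : ℕ) (hr : ∀ i, ar i ≤ r) (n : ℕ) :
    Fintype.card (t2_K ar (Fin n)) ≤ Fintype.card ι * 2 ^ r * (n + 1) ^ r := by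
  rw [Fintype.card_sigma]
  calc ∑ c : Con ar (Fin n), Fintype.card (Finset (Fin (ar c.1)))
      ≤ ∑ _c : Con ar (Fin n), 2 ^ r := by
        refine Finset.sum_le_sum fun c _ => ?_
        rw [Fintype.card_finset, Fintype.card_fin]
        exact Nat.pow_le_pow_right (by norm_num) (hr _)
    _ = Fintype.card (Con ar (Fin n)) * 2 ^ r := by
        rw [Finset.sum_const, Finset.card_univ, smul_eq_mul]
    _ ≤ Fintype.card ι * (n + 1) ^ r * 2 ^ r := Nat.mul_le_mul_right _ (t2_card_con r hr n)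
    _ = _ := by ring

theorem upper_and (h : Pol rel (fun x : Fin 2 → Bool => x 0 && x 1)) :
    ∃ C : ℕ, ∀ n : ℕ, ∃ l : List (Set (Con ar (Fin n)) → ℝ), MProg (conBits ar (Fin n)) l ∧
      l.length ≤ C * (n + 1) ^ C ∧ (fun F => if Sat rel F then (0 : ℝ) else 1) ∈ l := by
  obtain ⟨r, hr⟩ : ∃ r, ∀ i, ar i ≤ r := by
    refine ⟨∑ i, ar i, fun i => ?_⟩
    exact Finset.single_le_sum (f := ar) (fun _ _ => Nat.zero_le _) (Finset.mem_univ i)
  set M := Fintype.card ι * 2 ^ r with hM
  set D := 3 + Fintype.card ι + 2 * (M * (r + 2)) + 2 * M + 2 with hD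
  refine ⟨D + r + 2, fun n => ?_⟩
  obtain ⟨l, hl, hl2, hl3⟩ := t2_all h r hr n
  refine ⟨l, hl, ?_, hl3⟩
  have h1 := t2_card_con (ar := ar) r hr n
  have h2 := t2_card_K (ar := ar) r hr n
  set c := Fintype.card (Con ar (Fin n))
  set K := Fintype.card (t2_K ar (Fin n))
  set m := n + 1 with hm
  have hm1 : 1 ≤ m := by omega
  have hnm : n ≤ m := by omega
  have hp1 : 1 ≤ m ^ r := Nat.one_le_pow _ _ hm1
  have hmm : m ^ 2 * m ^ r = m ^ (r + 2) := by rw [← pow_add, add_comm]
  have hle : ∀ a : ℕ, a ≤ 2 → m ^ a * m ^ r ≤ m ^ (r + 2) := by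
    intro a ha
    rw [← pow_add]
    exact Nat.pow_le_pow_right hm1 (by omega)
  have e0 : m ^ r ≤ m ^ (r + 2) := Nat.pow_le_pow_right hm1 (by omega)
  have e1 : n ≤ m ^ (r + 2) := by
    calc n ≤ m ^ 1 := by rw [pow_one]; exact hnm
      _ ≤ m ^ (r + 2) := Nat.pow_le_pow_right hm1 (by omega)
  have e2 : c ≤ Fintype.card ι * m ^ (r + 2) := h1.trans (Nat.mul_le_mul_left _ e0)
  have e3 : K * (r + 2) ≤ (M * (r + 2)) * m ^ (r + 2) := by
    calc K * (r + 2) ≤ (M * m ^ r) * (r + 2) := Nat.mul_le_mul_right _ h2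
      _ = (M * (r + 2)) * m ^ r := by ring
      _ ≤ _ := Nat.mul_le_mul_left _ e0
  have e4 : n * (K * (r + 2)) ≤ (M * (r + 2)) * m ^ (r + 2) := by
    calc n * (K * (r + 2)) ≤ m * ((M * m ^ r) * (r + 2)) :=
          Nat.mul_le_mul hnm (Nat.mul_le_mul_right _ h2)
      _ = (M * (r + 2)) * (m ^ 1 * m ^ r) := by ring
      _ ≤ _ := Nat.mul_le_mul_left _ (hle 1 (by norm_num))
  have e5 : n * (n * (K + 2)) ≤ (M + 2) * m ^ (r + 2) := by
    have h5 : K + 2 ≤ (M + 2) * m ^ r := by nlinarith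
    calc n * (n * (K + 2)) ≤ m * (m * ((M + 2) * m ^ r)) :=
          Nat.mul_le_mul hnm (Nat.mul_le_mul hnm h5)
      _ = (M + 2) * (m ^ 2 * m ^ r) := by ring
      _ ≤ _ := Nat.mul_le_mul_left _ (hle 2 le_rfl)
  have e6 : K + 1 ≤ (M + 1) * m ^ (r + 2) := by
    calc K + 1 ≤ (M + 1) * m ^ r := by nlinarith
      _ ≤ _ := Nat.mul_le_mul_left _ e0
  have e7 : n + c + n * (K * (r + 2) + n * (K + 2)) + K * (r + 2) + (K + 1) ≤
      D * m ^ (r + 2) := by
    have : n * (K * (r + 2) + n * (K + 2)) = n * (K * (r + 2)) + n * (n * (K + 2)) := by ring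
    rw [this]
    have e8 : D * m ^ (r + 2) = m ^ (r + 2) + Fintype.card ι * m ^ (r + 2) +
        (M * (r + 2)) * m ^ (r + 2) + (M * (r + 2)) * m ^ (r + 2) + (M + 2) * m ^ (r + 2) +
        (M + 1) * m ^ (r + 2) + m ^ (r + 2) := by rw [hD]; ring
    rw [e8]
    omega
  refine hl2.trans (e7.trans ?_)
  exact Nat.mul_le_mul (by omega) (Nat.pow_le_pow_right hm1 (by omega))

end H630SD
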