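import Pool.Agent.H630GI.Rand
import Pool.Agent.H630SD.Model

/-! The block walk for inputs that are disjunctions (helper630) -/

open scoped Classical
open Finset Filter

namespace H630SD

open H630VC H630XR H630GI

variable {k b K : ℕ}

/-- disjunctions of the bits that tell whether a clause belongs to a block, and real constants -/
def orInputs (k b K : ℕ) : Set (BF k b K → ℝ) :=
  {f | (∃ A : Finset (Fin k × Cl (Fin b) K), f = fun F => ind (∃ p ∈ A, p.2 ∈ F p.1)) ∨
    ∃ a : ℝ, f = fun _ => a}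

/-- the same for a single block -/
def orCnf (b K : ℕ) : Set (Finset (Cl (Fin b) K) → ℝ) :=
  {f | (∃ A : Finset (Cl (Fin b) K), f = fun F => ind (∃ c ∈ A, c ∈ F)) ∨
    ∃ a : ℝ, f = fun _ => a}

theorem ind_congr {p q : Prop} (h : p ↔ q) : ind p = ind q := by
  rw [propext h]

theorem orCnf_mono (f : Finset (Cl (Fin b) K) → ℝ) (hf : f ∈ orCnf b K) : Monotone f := by
  rcases hf with ⟨A, rfl⟩ | ⟨a, rfl⟩
  · intro F G hFG
    exact ind_mono fun ⟨c, hc, hc'⟩ => ⟨c, hc, hFG hc'⟩
  · exact monotone_const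

theorem or_upd (y : Fin k → Fin b → Bool) (i : Fin k) (f : BF k b K → ℝ)
    (hf : f ∈ orInputs k b K) : (fun F => f (upd y i F)) ∈ orCnf b K := by
  rcases hf with ⟨A, rfl⟩ | ⟨a, rfl⟩
  · by_cases h : ∃ p ∈ A, p.1 ≠ i ∧ p.2 ∈ (ctx y i.1 : BF k b K) p.1
    · obtain ⟨p, hp, hi, hc⟩ := h
      refine Or.inr ⟨1, ?_⟩
      funext F
      refine if_pos ⟨p, hp, ?_⟩
      have e : upd y i F p.1 = ctx y i.1 p.1 := by simp [upd, Function.update_of_ne hi]
      rw [e]
      exact hc
    · refine Or.inl ⟨univ.filter fun c => (i, c) ∈ A, ?_⟩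
      funext F
      apply ind_congr
      constructor
      · rintro ⟨p, hp, hc⟩
        by_cases hi : p.1 = i
        · refine ⟨p.2, mem_filter.2 ⟨mem_univ _, ?_⟩, ?_⟩
          · rw [← hi]; exact hp
          · rw [hi] at hc
            simpa [upd] using hc
        · exfalso
          refine h ⟨p, hp, hi, ?_⟩
          simpa [upd, Function.update_of_ne hi] using hc
      · rintro ⟨c, hc, hcF⟩
        refine ⟨(i, c), (mem_filter.1 hc).2, ?_⟩
        simpa [upd] using hcF
  · exact Or.inr ⟨a, rfl⟩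

theorem or_ctx (y : Fin k → Fin b → Bool) (i : ℕ) (f : BF k b K → ℝ)
    (hf : f ∈ orInputs k b K) : f (ctx y i) ≤ f (ctx y (i + 1)) := by
  rcases hf with ⟨A, rfl⟩ | ⟨a, rfl⟩
  · have hsub : ∀ j, (ctx y i : BF k b K) j ⊆ ctx y (i + 1) j := by
      intro j
      unfold ctx
      by_cases h : j.1 < i
      · rw [if_pos h, if_pos (by omega)]
      · rw [if_neg h]; exact empty_subset _
    exact ind_mono fun ⟨p, hp, hc⟩ => ⟨p, hp, hsub _ hc⟩
  · exact le_rfl

theorem bit_mem (c : Cl (Fin b) K) :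
    (fun F : Finset (Cl (Fin b) K) => ind (c ∈ F)) ∈ cnfInputs (Fin b) K := by
  refine Or.inl ⟨c, ?_⟩
  funext F
  unfold ind
  by_cases h : c ∈ F
  · rw [if_pos h, if_pos h]
  · rw [if_neg h, if_neg h]

/-- a disjunction of input bits -/
theorem exists_or (cs : List (Cl (Fin b) K)) :
    ∀ l₀ : List (Finset (Cl (Fin b) K) → ℝ), Prog (cnfInputs (Fin b) K) l₀ →
    ∃ l : List (Finset (Cl (Fin b) K) → ℝ), Prog (cnfInputs (Fin b) K) l ∧
      l.length ≤ l₀.length + (2 * cs.length + 1) ∧ l₀ ⊆ l ∧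
      (fun F => ind (∃ c ∈ cs, c ∈ F)) ∈ l := by
  induction cs with
  | nil =>
    intro l₀ h₀
    refine ⟨(fun _ => 0) :: l₀, Prog.input h₀ (Or.inr ⟨0, rfl⟩), by simp,
      fun f hf => List.mem_cons_of_mem _ hf, ?_⟩
    have : (fun F : Finset (Cl (Fin b) K) => ind (∃ c ∈ ([] : List (Cl (Fin b) K)), c ∈ F)) =
        fun _ => 0 := by
      funext F
      exact if_neg (by simp)
    rw [this]
    exact List.mem_cons_self
  | cons c cs ih =>
    intro l₀ h₀
    obtain ⟨l, h1, h2, h3, h4⟩ := ih l₀ h₀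
    have h5 : Prog (cnfInputs (Fin b) K)
        ((fun F : Finset (Cl (Fin b) K) => ind (c ∈ F)) :: l) :=
      Prog.input h1 (bit_mem c)
    have hmax : Mono2 fun x y : ℝ => max x y := fun x x' y y' hx hy => max_le_max hx hy
    refine ⟨_, Prog.gate (φ := fun x y => max x y) h5 hmax List.mem_cons_self
      (List.mem_cons_of_mem _ h4), ?_, ?_, ?_⟩
    · simp only [List.length_cons]
      omega
    · exact fun f hf => List.mem_cons_of_mem _ (List.mem_cons_of_mem _ (h3 hf))
    · have : (fun F : Finset (Cl (Fin b) K) => ind (∃ c' ∈ c :: cs, c' ∈ F)) =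
          fun F => max (ind (c ∈ F)) (ind (∃ c' ∈ cs, c' ∈ F)) := by
        funext F
        unfold ind
        by_cases h6 : c ∈ F <;> by_cases h7 : ∃ c' ∈ cs, c' ∈ F
        · rw [if_pos h6, if_pos h7, if_pos ⟨c, List.mem_cons_self, h6⟩, max_self]
        · rw [if_pos h6, if_neg h7, if_pos ⟨c, List.mem_cons_self, h6⟩]
          norm_num
        · obtain ⟨c', hc', hc''⟩ := h7
          rw [if_neg h6, if_pos ⟨c', List.mem_cons_of_mem _ hc', hc''⟩, if_pos ⟨c', hc', hc''⟩]
          norm_num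
        · rw [if_neg h6, if_neg h7, if_neg, max_self]
          rintro ⟨c', hc', hc''⟩
          rcases List.mem_cons.1 hc' with rfl | hc'
          · exact h6 hc''
          · exact h7 ⟨c', hc', hc''⟩
      rw [this]
      exact List.mem_cons_self

/-- circuits with disjunctions as inputs are circuits -/
theorem expand {l : List (Finset (Cl (Fin b) K) → ℝ)} (h : Prog (orCnf b K) l) :
    ∃ l' : List (Finset (Cl (Fin b) K) → ℝ), Prog (cnfInputs (Fin b) K) l' ∧ l ⊆ l' ∧
      l'.length ≤ l.length * (2 * Fintype.card (Cl (Fin b) K) + 1) := by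
  induction h with
  | nil => exact ⟨[], Prog.nil, fun f hf => hf, by simp⟩
  | @input l f h hf ih =>
    obtain ⟨l', h1, h2, h3⟩ := ih
    rcases hf with ⟨A, rfl⟩ | ⟨a, rfl⟩
    · obtain ⟨l'', g1, g2, g3, g4⟩ := exists_or A.toList l' h1
      refine ⟨l'', g1, ?_, ?_⟩
      · intro g hg
        rcases List.mem_cons.1 hg with rfl | hg
        · have e : (fun F : Finset (Cl (Fin b) K) => ind (∃ c ∈ A, c ∈ F)) =
              fun F => ind (∃ c ∈ A.toList, c ∈ F) := by
            funext F
            exact ind_congr ⟨fun ⟨c, hc, hc'⟩ => ⟨c, Finset.mem_toList.2 hc, hc'⟩,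
              fun ⟨c, hc, hc'⟩ => ⟨c, Finset.mem_toList.1 hc, hc'⟩⟩
          rw [e]
          exact g4
        · exact g3 (h2 hg)
      · have h4 : A.toList.length ≤ Fintype.card (Cl (Fin b) K) := by
          rw [Finset.length_toList]
          exact card_le_univ A
        rw [List.length_cons, Nat.add_mul, one_mul]
        omega
    · refine ⟨(fun _ => a) :: l', Prog.input h1 (Or.inr ⟨a, rfl⟩), ?_, ?_⟩
      · intro g hg
        rcases List.mem_cons.1 hg with rfl | hg
        · exact List.mem_cons_self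
        · exact List.mem_cons_of_mem _ (h2 hg)
      · rw [List.length_cons, List.length_cons, Nat.add_mul, one_mul]
        omega
  | @gate l φ f g h hφ hf hg ih =>
    obtain ⟨l', h1, h2, h3⟩ := ih
    refine ⟨_, Prog.gate h1 hφ (h2 hf) (h2 hg), ?_, ?_⟩
    · intro g' hg'
      rcases List.mem_cons.1 hg' with rfl | hg'
      · exact List.mem_cons_self
      · exact List.mem_cons_of_mem _ (h2 hg')
    · rw [List.length_cons, List.length_cons, Nat.add_mul, one_mul]
      omega

/-- one step of the walk, for one circuit -/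
theorem step (κ S : ℝ) (m : ℕ)
    (hd : ∀ l : List (Finset (Cl (Fin b) K) → ℝ), Prog (orCnf b K) l →
      (l.length : ℝ) ≤ S → ∀ f ∈ l,
      avg (fun ω : Fin m → Cl (Fin b) K => ind (1 ≤ f (univ.image ω))) ≤
        κ + avg fun z : Fin b → Bool => ind (1 ≤ f (oddFormula z)))
    {l : List (BF k b K → ℝ)} {q : List (List ((BF k b K → ℝ) × ℝ))}
    (hp : FProg (orInputs k b K) l q) {f : BF k b K → ℝ} (hf : f ∈ l)
    (hsize : ((l.length + wires q + 2 : ℕ) : ℝ) ≤ S) (y : Fin k → Fin b → Bool) (i : Fin k) :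
    avg (fun ω : Fin m → Cl (Fin b) K => ind (1 ≤ f (upd y i (univ.image ω)))) ≤
      κ + avg fun z : Fin b → Bool => (ind (Flips q (ctx y i.1) (upd y i (oddFormula z))) +
        ind (1 ≤ f (upd y i (oddFormula z)))) := by
  obtain ⟨l', D, g1, g2, g3, g4, g5, g6, g7⟩ := frozen (inp' := orCnf b K)
    (fun F => upd y i F) (or_upd y i) orCnf_mono (fun c => Or.inr ⟨c, rfl⟩) hp
  obtain ⟨f', hf', hff⟩ := g7 f hf
  let φ : ℝ → ℝ → ℝ := fun x y => if 1 ≤ y then max x 1 else x
  have hφ : Mono2 φ := by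
    intro x x' y y' hx hy
    simp only [φ]
    split_ifs with e1 e2 e2
    · exact max_le_max hx le_rfl
    · exact absurd (e1.trans hy) e2
    · exact hx.trans (le_max_left _ _)
    · exact hx
  have hE : ∀ H, 1 ≤ φ (f' H) (D H) ↔
      (Flips q (ctx y i.1) (upd y i H) ∨
        (¬ Flips q (ctx y i.1) (upd y i H) ∧ 1 ≤ f (upd y i H))) := by
    intro H
    have hD := g6 H
    have hb : upd y i (⊥ : Finset (Cl (Fin b) K)) = ctx y i.1 := upd_empty y i
    simp only [hb] at hD
    rcases g4 H with h0 | h0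
    · have hnf : ¬ Flips q (ctx y i.1) (upd y i H) := by
        rw [← hD, h0]; norm_num
      simp only [φ, h0, hff H h0, hnf]
      norm_num
    · have hfl : Flips q (ctx y i.1) (upd y i H) := hD.1 h0
      simp only [φ, h0, hfl]
      simp
  have hlen : ((((fun H => φ (f' H) (D H)) :: l').length : ℕ) : ℝ) ≤ S := by
    rw [List.length_cons, g3]
    exact hsize
  have hcore := hd _ (Prog.gate (φ := φ) g1 hφ hf' g2) hlen
    (fun H => φ (f' H) (D H)) List.mem_cons_self
  refine le_trans (avg_mono fun ω => ?_) (hcore.trans (add_le_add_right (avg_mono fun z => ?_) κ))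
  · apply ind_mono
    intro hβ
    rw [hE]
    by_cases hfl : Flips q (ctx y i.1) (upd y i (univ.image ω))
    · exact Or.inl hfl
    · exact Or.inr ⟨hfl, hβ⟩
  · have n1 := ind_nonneg (Flips q (ctx y i.1) (upd y i (oddFormula z)))
    have n2 := ind_nonneg (1 ≤ f (upd y i (oddFormula z)))
    by_cases hθ : 1 ≤ φ (f' (oddFormula z)) (D (oddFormula z))
    · have h1 : ind (1 ≤ φ (f' (oddFormula z)) (D (oddFormula z))) = 1 := if_pos hθ
      rcases (hE _).1 hθ with h' | h'
      · have : ind (Flips q (ctx y i.1) (upd y i (oddFormula z))) = 1 := if_pos h'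
        linarith
      · have : ind (1 ≤ f (upd y i (oddFormula z))) = 1 := if_pos h'.2
        linarith
    · have h1 : ind (1 ≤ φ (f' (oddFormula z)) (D (oddFormula z))) = 0 := if_neg hθ
      linarith

/-- few flips along the walk -/
theorem sum_flips {l : List (BF k b K → ℝ)} {q : List (List ((BF k b K → ℝ) × ℝ))}
    (hp : FProg (orInputs k b K) l q) (y : Fin k → Fin b → Bool) :
    ∑ i : Fin k, ind (Flips q (ctx y i.1 : BF k b K) (ctx y (i.1 + 1))) ≤ (combos q : ℝ) := by
  have key : ∀ n : ℕ, ∑ i ∈ range n, ind (Flips q (ctx y i : BF k b K) (ctx y (i + 1))) ≤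
      (lexRank q (ctx y n : BF k b K) : ℝ) := by
    intro n
    induction n with
    | zero => simp
    | succ n ih =>
      rw [sum_range_succ]
      obtain ⟨h1, h2⟩ := lexRank_mono hp (ctx y n) (ctx y (n + 1)) (or_ctx y n)
      rcases lt_or_eq_of_le h1 with h | h
      · have h3 : ((lexRank q (ctx y n : BF k b K) + 1 : ℕ) : ℝ) ≤
            (lexRank q (ctx y (n + 1) : BF k b K) : ℝ) := by exact_mod_cast h
        push_cast at h3
        have := ind_le_one (Flips q (ctx y n : BF k b K) (ctx y (n + 1)))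
        linarith
      · have h3 : ind (Flips q (ctx y n : BF k b K) (ctx y (n + 1))) = 0 := if_neg (h2 h).1
        rw [h3, add_zero, ← h]
        exact ih
  have h1 := key k
  rw [Fin.sum_univ_eq_sum_range
    (fun i => ind (Flips q (ctx y i : BF k b K) (ctx y (i + 1)))) k]
  refine h1.trans ?_
  have h2 := lexRank_lt q (ctx y k : BF k b K)
  exact_mod_cast h2.le

/-- the walk, for one circuit -/
theorem walk_one (κ S : ℝ) (m : ℕ)
    (hd : ∀ l : List (Finset (Cl (Fin b) K) → ℝ), Prog (orCnf b K) l →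
      (l.length : ℝ) ≤ S → ∀ f ∈ l,
      avg (fun ω : Fin m → Cl (Fin b) K => ind (1 ≤ f (univ.image ω))) ≤
        κ + avg fun z : Fin b → Bool => ind (1 ≤ f (oddFormula z)))
    {l : List (BF k b K → ℝ)} {q : List (List ((BF k b K → ℝ) × ℝ))}
    (hp : FProg (orInputs k b K) l q) {f : BF k b K → ℝ} (hf : f ∈ l)
    (hsize : ((l.length + wires q + 2 : ℕ) : ℝ) ≤ S) :
    ∑ i : Fin k, avg (fun y : Fin k → Fin b → Bool =>
        avg (fun ω : Fin m → Cl (Fin b) K => ind (1 ≤ f (upd y i (univ.image ω))))) ≤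
      k * κ + combos q + ∑ i : Fin k, avg (fun y : Fin k → Fin b → Bool =>
        ind (1 ≤ f (ctx y (i.1 + 1)))) := by
  have h1 : ∀ i : Fin k, avg (fun y : Fin k → Fin b → Bool =>
        avg (fun ω : Fin m → Cl (Fin b) K => ind (1 ≤ f (upd y i (univ.image ω))))) ≤
      κ + avg fun y : Fin k → Fin b → Bool => (ind (Flips q (ctx y i.1) (ctx y (i.1 + 1))) +
        ind (1 ≤ f (ctx y (i.1 + 1)))) := by
    intro i
    have h2 := avg_mono (fun y : Fin k → Fin b → Bool => step κ S m hd hp hf hsize y i)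
    refine h2.trans ?_
    rw [avg_add, avg_const]
    refine add_le_add_right (le_of_eq ?_) κ
    have h3 := resample (Z := Fin b → Bool) i (fun y z =>
      ind (Flips q (ctx y i.1) (upd y i (oddFormula z))) +
        ind (1 ≤ f (upd y i (oddFormula z)))) ?_
    · rw [h3]
      simp only [upd_odd]
    · intro y z w
      have e : (ctx (Function.update y i z) i.1 : BF k b K) = ctx y i.1 := by
        rw [← upd_empty, ← upd_empty, upd_update]
      simp only [upd_update, e]
  have h4 := Finset.sum_le_sum fun i (_ : i ∈ (univ : Finset (Fin k))) => h1 i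
  refine h4.trans ?_
  rw [Finset.sum_add_distrib, sum_const, card_univ, Fintype.card_fin, nsmul_eq_mul]
  have h5 : ∑ i : Fin k, avg (fun y : Fin k → Fin b → Bool =>
      (ind (Flips q (ctx y i.1 : BF k b K) (ctx y (i.1 + 1))) + ind (1 ≤ f (ctx y (i.1 + 1))))) =
      avg (fun y : Fin k → Fin b → Bool =>
        ∑ i : Fin k, ind (Flips q (ctx y i.1 : BF k b K) (ctx y (i.1 + 1)))) +
      ∑ i : Fin k, avg (fun y : Fin k → Fin b → Bool => ind (1 ≤ f (ctx y (i.1 + 1)))) := by
    rw [avg_sum, ← Finset.sum_add_distrib]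
    refine Finset.sum_congr rfl fun i _ => avg_add _ _
  rw [h5]
  have h6 : avg (fun y : Fin k → Fin b → Bool =>
        ∑ i : Fin k, ind (Flips q (ctx y i.1 : BF k b K) (ctx y (i.1 + 1)))) ≤ combos q := by
    calc _ ≤ avg (fun _ : Fin k → Fin b → Bool => (combos q : ℝ)) :=
          avg_mono fun y => sum_flips hp y
      _ = _ := avg_const _
  linarith

/-- the walk, for randomised circuits -/
theorem walk_rand (κ S β ξ P : ℝ) (m : ℕ) (U : Finset (Cl (Fin b) K) → Prop)
    [Nonempty (Fin m → Cl (Fin b) K)]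
    (hd : ∀ l : List (Finset (Cl (Fin b) K) → ℝ), Prog (orCnf b K) l →
      (l.length : ℝ) ≤ S → ∀ f ∈ l,
      avg (fun ω : Fin m → Cl (Fin b) K => ind (1 ≤ f (univ.image ω))) ≤
        κ + avg fun z : Fin b → Bool => ind (1 ≤ f (oddFormula z)))
    {R : Type*} [Fintype R] [Nonempty R] (g : R → BF k b K → ℝ) (l : R → List (BF k b K → ℝ))
    (q : R → List (List ((BF k b K → ℝ) × ℝ)))
    (hp : ∀ r, FProg (orInputs k b K) (l r) (q r)) (hg : ∀ r, g r ∈ l r)
    (hsize : ∀ r, (((l r).length + wires (q r) + 2 : ℕ) : ℝ) ≤ S)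
    (hP : ∀ r, (combos (q r) : ℝ) ≤ P) (hξ : 1 / 2 + ξ ≤ 1) (hξ0 : 0 ≤ 1 / 2 + ξ)
    (hβ0 : 0 ≤ β)
    (hβ : avg (fun ω : Fin m → Cl (Fin b) K => ind (¬ U (univ.image ω))) ≤ β)
    (hyes : ∀ (y : Fin k → Fin b → Bool) (i : Fin k) (F : Finset (Cl (Fin b) K)), U F →
      (1 / 2 + ξ) * Fintype.card R ≤ ((univ.filter fun r => 1 ≤ g r (upd y i F)).card : ℝ))
    (hno : ∀ (y : Fin k → Fin b → Bool) (i : Fin k),
      (1 / 2 + ξ) * Fintype.card R ≤
        ((univ.filter fun r => g r (ctx y (i.1 + 1)) < 1).card : ℝ)) :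
    k * (2 * ξ) ≤ k * κ + P + k * β := by
  have hR : (0 : ℝ) < Fintype.card R := by exact_mod_cast Fintype.card_pos
  have h1 := Finset.sum_le_sum fun r (_ : r ∈ (univ : Finset R)) =>
    walk_one κ S m hd (hp r) (hg r) (hsize r)
  have hA : ∀ i : Fin k, (1 / 2 + ξ) * Fintype.card R * (1 - β) ≤
      ∑ r : R, avg (fun y : Fin k → Fin b → Bool =>
        avg (fun ω : Fin m → Cl (Fin b) K => ind (1 ≤ g r (upd y i (univ.image ω))))) := by
    intro i
    rw [← avg_sum]
    have h2 : ∀ y : Fin k → Fin b → Bool, (1 / 2 + ξ) * Fintype.card R * (1 - β) ≤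
        ∑ r : R, avg (fun ω : Fin m → Cl (Fin b) K =>
          ind (1 ≤ g r (upd y i (univ.image ω)))) := by
      intro y
      rw [← avg_sum]
      have h3 : ∀ ω : Fin m → Cl (Fin b) K, (1 / 2 + ξ) * Fintype.card R +
          (-((1 / 2 + ξ) * Fintype.card R)) * ind (¬ U (univ.image ω)) ≤
          ∑ r : R, ind (1 ≤ g r (upd y i (univ.image ω))) := by
        intro ω
        rw [← card_ind]
        by_cases hU : U (univ.image ω)
        · have : ind (¬ U (univ.image ω)) = 0 := if_neg (not_not.2 hU)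
          rw [this]
          have := hyes y i _ hU
          linarith
        · have : ind (¬ U (univ.image ω)) = 1 := if_pos hU
          rw [this]
          have h0 : (0 : ℝ) ≤ ((univ.filter fun r => 1 ≤ g r (upd y i (univ.image ω))).card : ℝ) :=
            Nat.cast_nonneg _
          linarith
      refine le_trans ?_ (avg_mono h3)
      rw [avg_add, avg_const, avg_mul]
      have h4 : 0 ≤ (1 / 2 + ξ) * Fintype.card R := by positivity
      nlinarith
    calc (1 / 2 + ξ) * Fintype.card R * (1 - β)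
        = avg (fun _ : Fin k → Fin b → Bool => (1 / 2 + ξ) * Fintype.card R * (1 - β)) :=
          (avg_const _).symm
      _ ≤ _ := avg_mono h2
  have hB : ∀ i : Fin k, ∑ r : R, avg (fun y : Fin k → Fin b → Bool =>
        ind (1 ≤ g r (ctx y (i.1 + 1)))) ≤ (1 / 2 - ξ) * Fintype.card R := by
    intro i
    rw [← avg_sum]
    have h2 : ∀ y : Fin k → Fin b → Bool,
        ∑ r : R, ind (1 ≤ g r (ctx y (i.1 + 1))) ≤ (1 / 2 - ξ) * Fintype.card R := by
      intro y
      rw [← card_ind]
      have h3 := hno y i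
      have h4 : (univ.filter fun r => g r (ctx y (i.1 + 1)) < 1).card +
          (univ.filter fun r => 1 ≤ g r (ctx y (i.1 + 1))).card = Fintype.card R := by
        have h5 := card_filter_add_card_filter_not (s := (univ : Finset R))
          (fun r => g r (ctx y (i.1 + 1)) < 1)
        simp only [not_lt] at h5
        rw [card_univ] at h5
        exact h5
      have h6 : (((univ.filter fun r => g r (ctx y (i.1 + 1)) < 1).card : ℕ) : ℝ) +
          ((univ.filter fun r => 1 ≤ g r (ctx y (i.1 + 1))).card : ℝ) = Fintype.card R := by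
        exact_mod_cast h4
      linarith
    calc _ ≤ avg (fun _ : Fin k → Fin b → Bool => (1 / 2 - ξ) * (Fintype.card R : ℝ)) :=
          avg_mono h2
      _ = _ := avg_const _
  rw [Finset.sum_comm] at h1
  have h2 : ∑ r : R, ((k : ℝ) * κ + combos (q r) + ∑ i : Fin k,
      avg (fun y : Fin k → Fin b → Bool => ind (1 ≤ g r (ctx y (i.1 + 1))))) ≤
      Fintype.card R * (k * κ + P) + k * ((1 / 2 - ξ) * Fintype.card R) := by
    rw [Finset.sum_add_distrib]
    refine add_le_add ?_ ?_
    · calc ∑ r : R, ((k : ℝ) * κ + combos (q r)) ≤ ∑ _r : R, ((k : ℝ) * κ + P) :=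
            Finset.sum_le_sum fun r _ => by have := hP r; linarith
        _ = _ := by rw [sum_const, card_univ, nsmul_eq_mul]
    · rw [Finset.sum_comm]
      calc _ ≤ ∑ _i : Fin k, (1 / 2 - ξ) * (Fintype.card R : ℝ) :=
            Finset.sum_le_sum fun i _ => hB i
        _ = _ := by rw [sum_const, card_univ, nsmul_eq_mul, Fintype.card_fin]
  have h3 : (k : ℝ) * ((1 / 2 + ξ) * Fintype.card R * (1 - β)) ≤
      ∑ i : Fin k, ∑ r : R, avg (fun y : Fin k → Fin b → Bool =>
        avg (fun ω : Fin m → Cl (Fin b) K => ind (1 ≤ g r (upd y i (univ.image ω))))) := by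
    calc (k : ℝ) * ((1 / 2 + ξ) * Fintype.card R * (1 - β))
        = ∑ _i : Fin k, (1 / 2 + ξ) * Fintype.card R * (1 - β) := by
          rw [sum_const, card_univ, nsmul_eq_mul, Fintype.card_fin]
      _ ≤ _ := Finset.sum_le_sum fun i _ => hA i
  have h4 := (h3.trans h1).trans h2
  have h5 : (Fintype.card R : ℝ) * ((k : ℝ) * ((1 / 2 + ξ) * (1 - β))) ≤
      Fintype.card R * (k * κ + P + k * (1 / 2 - ξ)) := by
    calc _ = (k : ℝ) * ((1 / 2 + ξ) * Fintype.card R * (1 - β)) := by ring
      _ ≤ _ := h4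
      _ = _ := by ring
  have h6 := le_of_mul_le_mul_left h5 hR
  have hk0 : (0 : ℝ) ≤ k := Nat.cast_nonneg _
  have h7 : (k : ℝ) * ((1 / 2 + ξ) * β) ≤ k * β := by
    apply mul_le_mul_of_nonneg_left _ hk0
    nlinarith
  nlinarith

end H630SD
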